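import Pool.Agent.Lib.MP_4bab84_h56.Loc

/-! Small cuts of the tubes. -/

set_option autoImplicit false

namespace Pool.Agent.Lib.T5

lemma chk_sound {v u : ℕ} {C : List (List ℕ)} {X : Finset ℕ} (hX : X.card ≤ 5) (hu : u ∉ X) :
    ∀ (k : ℕ) (Y : List ℕ), Y.Nodup → (∀ y ∈ Y, y ∈ X ∧ ∃ p ∈ C, y ∈ p) → Y.length + k = 5 →
      chk v u C k Y = true → (∃ p ∈ C, ∀ x ∈ p, x ∉ X) ∨
        ∃ Z : List ℕ, Z.Nodup ∧ Z.toFinset = X ∧ Z.length = 5 ∧ (∀ y ∈ Z, ∃ p ∈ C, y ∈ p) ∧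
          exc v Z = true
  | 0, Y, hn, hY, hl, h => by
    have e : Y.toFinset = X := Finset.eq_of_subset_of_card_le
      (fun y hy => (hY y (List.mem_toFinset.1 hy)).1)
      (by rw [List.toFinset_card_of_nodup hn]; omega)
    simp only [chk, Bool.or_eq_true, List.any_eq_true, List.all_eq_true, decide_eq_true_eq] at h
    rcases h with ⟨p, hp, h⟩ | h
    · exact Or.inl ⟨p, hp, fun x hx hxX => h x hx (List.mem_toFinset.1 (e ▸ hxX))⟩
    · exact Or.inr ⟨Y, hn, e, by omega, fun y hy => (hY y hy).2, h⟩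
  | k + 1, Y, hn, hY, hl, h => by
    rw [chk] at h
    split at h
    · rename_i p hp
      have h1 := List.mem_of_find?_eq_some hp
      have h2 := List.find?_some hp
      simp only [List.all_eq_true, decide_eq_true_eq, Bool.or_eq_true] at h h2
      by_cases hf : ∀ x ∈ p, x ∉ X
      · exact Or.inl ⟨p, h1, hf⟩
      push Not at hf
      obtain ⟨x, hx, hxX⟩ := hf
      refine chk_sound hX hu k (x :: Y) (List.nodup_cons.2 ⟨h2 x hx, hn⟩) (fun y hy => ?_)
        (by simp; omega) ((h x hx).resolve_left fun e => hu (e ▸ hxX))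
      rcases List.mem_cons.1 hy with rfl | hy
      · exact ⟨hxX, p, h1, hx⟩
      · exact hY y hy
    · exact absurd h (by simp)

lemma okp_rg {v : ℕ} : ∀ (p : List ℕ) (y : ℕ), okp v y p = true → ∀ x ∈ p, Rg v x
  | [], _, _, _, hx => absurd hx (by simp)
  | z :: p, y, h, x, hx => by
    simp only [okp, Bool.and_eq_true, decide_eq_true_eq] at h
    rcases List.mem_cons.1 hx with rfl | hx
    · exact h.1.2
    · exact okp_rg p z h.2 x hx

lemma okp_walk {v : ℕ} {bad c : ℕ → Prop} {r : ℕ → ℕ → Prop}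
    (hr : ∀ x y, Rg v x → Rg v y → adj 44 x y → r x y)
    (hc : ∀ x y, r x y → ¬ bad x → ¬ bad y → (c x ↔ c y)) :
    ∀ (p : List ℕ) (y : ℕ), okp v y p = true → (∀ x ∈ p, ¬ bad x) → ¬ bad y → Rg v y →
      (y < v → ∃ z, r z y ∧ ¬ bad z) →
      ∃ e, e < v ∧ ¬ bad e ∧ (c y ↔ c e) ∧ ∃ z, r z e ∧ ¬ bad z
  | [], y, h, _, hy, _, hz => by
    simp only [okp, decide_eq_true_eq] at h
    exact ⟨y, h, hy, Iff.rfl, hz h⟩
  | z :: p, y, h, hp, hy, hg, _ => by
    simp only [okp, Bool.and_eq_true, decide_eq_true_eq] at h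
    have h1 := hr y z hg h.1.2 h.1.1
    have h2 := hp z (by simp)
    obtain ⟨e, e1, e2, e3, e4⟩ := okp_walk hr hc p z h.2 (fun x hx => hp x (by simp [hx])) h2 h.1.2
      fun _ => ⟨y, h1, hy⟩
    exact ⟨e, e1, e2, (hc y z h1 hy h2).trans e3, e4⟩

lemma top_of {v : ℕ} (hv : v < 44) :
    (∀ p ∈ cand.getD v [], okp v v p = true) ∧
    (∀ u, (v < 5 → u < v) → (5 ≤ v → u = v) → chk v u (cand.getD v []) 5 [] = true) ∧
    (∀ z, adj 44 v z → Rg v z) ∧ Rg v v ∧
    ∀ w < 44, w ≠ v → ((nbs v).filter fun z => decide (adj 44 w z)).length ≤ 2 := by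
  have h := List.all_eq_true.1 top_all v (List.mem_range.2 hv)
  simp only [top, Bool.and_eq_true, List.all_eq_true, decide_eq_true_eq, Bool.or_eq_true,
    List.mem_range] at h
  obtain ⟨⟨⟨⟨h1, h2⟩, h3⟩, h4⟩, h5⟩ := h
  refine ⟨h1, fun u a b => h2 u ?_, fun z hz => h3 z (mem_nbs.2 hz), h4,
    fun w hw hne => (h5 w hw).resolve_left hne⟩
  split_ifs with h
  · exact List.mem_range.2 (a h)
  · simp [b (by omega)]

variable {N : ℕ} (h4 : N % 4 = 0) (hN : 44 ≤ N)
include h4 hN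

/-- Two vertices have at most two common neighbours. -/
lemma common {u w : ℕ} (hne : u ≠ w) (S : Finset ℕ) (hS : ∀ z ∈ S, adj N u z ∧ adj N w z) :
    S.card ≤ 2 := by
  rcases S.eq_empty_or_nonempty with rfl | ⟨z1, hz1⟩
  · simp
  obtain ⟨o, v, rfl, ho, hoN, hv, -, hs⟩ := window h4 hN (hS z1 hz1).1.symm.lt
  obtain ⟨-, -, t3, t4, t5⟩ := top_of hv
  have key : ∀ z ∈ S, ∃ y, z = y + o ∧ adj 44 v y ∧ ∃ x, w = x + o ∧ adj 44 y x := fun z hz => by
    obtain ⟨y, rfl, hy⟩ := adj_full h4 ho hoN (hs v t4) (hS z hz).1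
    exact ⟨y, rfl, hy, adj_full h4 ho hoN (hs y (t3 y hy)) (hS _ hz).2.symm⟩
  obtain ⟨y1, -, -, x, rfl, hx⟩ := key z1 hz1
  refine le_trans ?_ (t5 x hx.lt fun e => hne (by rw [e]))
  refine le_trans ?_ (List.toFinset_card_le _)
  refine Finset.card_le_card_of_injOn (fun z => z - o) (fun z hz => ?_) fun z hz z' hz' e => ?_
  · obtain ⟨y, rfl, hy, x', e, hx'⟩ := key z hz
    obtain rfl : x = x' := by omega
    simp only [Nat.add_sub_cancel, List.coe_toFinset, List.mem_filter, decide_eq_true_eq,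
      Set.mem_ofPred_eq]
    exact ⟨mem_nbs.2 hy, hx'.symm⟩
  · obtain ⟨y, rfl, -⟩ := key z hz
    obtain ⟨y', rfl, -⟩ := key z' hz'
    simp only [Nat.add_sub_cancel] at e
    rw [e]

lemma step {X : Finset ℕ} (hX : X.card ≤ 5) {c : ℕ → Prop}
    (hc : ∀ x y, adj N x y → x ∉ X → y ∉ X → (c x ↔ c y))
    (hd : X.card = 5 → ∀ x ∈ X, 2 ≤ (X.filter fun y => adj N x y).card)
    {v m : ℕ} (hv : v < N) (hvX : v ∉ X) (hvi : X.card = 5 → ∃ z, adj N z v ∧ z ∉ X)
    (hm : m < v) (hmX : m ∉ X) (hmi : X.card = 5 → ∃ z, adj N z m ∧ z ∉ X) :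
    ∃ e, e < v ∧ e ∉ X ∧ (c v ↔ c e) ∧ ∃ z, adj N z e ∧ z ∉ X := by
  obtain ⟨o, v, rfl, ho, hoN, hv0, h16, hs⟩ := window h4 hN hv
  obtain ⟨t1, t2, t3, t4, -⟩ := top_of hv0
  set X0 := (X.filter fun x => o ≤ x).image fun x => x - o with hX0
  have mem : ∀ x, x ∈ X0 ↔ x + o ∈ X := fun x => by
    simp only [hX0, Finset.mem_image, Finset.mem_filter]
    refine ⟨?_, fun h => ⟨x + o, ⟨h, by omega⟩, by omega⟩⟩
    rintro ⟨y, ⟨h1, h2⟩, rfl⟩
    rwa [Nat.sub_add_cancel h2]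
  have c0 : X0.card ≤ X.card := Finset.card_image_le.trans (Finset.card_filter_le _ _)
  have hu : (if v < 5 then m else v) ∉ X0 := by
    rw [mem]
    split_ifs with h
    · rwa [h16 (by omega)]
    · exact hvX
  have h0 := t2 (if v < 5 then m else v) (fun h => by rw [if_pos h]; have := h16 (by omega); omega)
    fun h => if_neg (by omega)
  rcases chk_sound (c0.trans hX) hu 5 [] List.nodup_nil (by simp) rfl h0 with
    ⟨p, hp, hf⟩ | ⟨Z, zn, ze, zl, zp, hz⟩
  · obtain ⟨e, e1, e2, e3, z, e4, e5⟩ := okp_walk (bad := fun x => x + o ∈ X)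
      (c := fun x => c (x + o)) (r := fun x y => adj N (x + o) (y + o))
      (fun x y hx hy h => (adj_shift h4 ho hoN (hs x hx) (hs y hy)).2 h)
      (fun x y h => hc _ _ h) p v (t1 p hp) (fun x hx => (mem x).not.1 (hf x hx)) hvX t4
      fun h => absurd h (lt_irrefl _)
    exact ⟨e + o, by omega, e2, e3, z + o, e4, e5⟩
  exfalso
  have c5 : X0.card = 5 := by rw [← ze, List.toFinset_card_of_nodup zn, zl]
  have x5 : X.card = 5 := by omega
  have zm : ∀ x, x ∈ Z ↔ x + o ∈ X := fun x => by rw [← mem, ← ze, List.mem_toFinset]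
  have zr : ∀ y ∈ Z, Safe N o y := fun y hy =>
    let ⟨p, hp, h⟩ := zp y hy
    hs y (okp_rg p v (t1 p hp) y h)
  have xo : ∀ x ∈ X, o ≤ x := by
    have : (X.filter fun x => o ≤ x) = X := Finset.eq_of_subset_of_card_le (Finset.filter_subset _ _)
      (by rw [x5, ← c5]; exact Finset.card_image_le)
    exact fun x hx => (Finset.mem_filter.1 (this.ge hx)).2
  have iso : ∀ w, Safe N o w → (∀ z ∈ nbs w, z ∈ Z) → ¬ ∃ z, adj N z (w + o) ∧ z ∉ X := by
    rintro w hw h ⟨z, h1, h2⟩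
    obtain ⟨y, rfl, hy⟩ := adj_full h4 ho hoN hw h1.symm
    exact h2 ((zm y).1 (h y (mem_nbs.2 hy)))
  simp only [exc, Bool.or_eq_true, List.any_eq_true, List.all_eq_true, decide_eq_true_eq,
    Bool.and_eq_true, List.mem_range] at hz
  rcases hz with (⟨y, hy, h⟩ | h) | ⟨h12, h⟩
  · refine absurd ((hd x5 _ ((zm y).1 hy)).trans ?_) (not_le.2 h)
    refine le_trans ?_ (List.toFinset_card_le _)
    refine Finset.card_le_card_of_injOn (fun z => z - o) (fun z hz => ?_) fun z hz z' hz' e => ?_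
    · obtain ⟨h1, h2⟩ := Finset.mem_filter.1 hz
      obtain ⟨z, rfl⟩ := Nat.exists_eq_add_of_le' (xo z h1)
      simp only [Nat.add_sub_cancel, List.coe_toFinset, List.mem_filter, decide_eq_true_eq,
        Set.mem_ofPred_eq]
      exact ⟨(zm z).2 h1, (adj_shift h4 ho hoN (zr y hy) (zr z ((zm z).2 h1))).1 h2⟩
    · have := xo z (Finset.mem_filter.1 hz).1
      have := xo z' (Finset.mem_filter.1 hz').1
      simp only at e
      omega
  · exact iso v (hs v t4) h (hvi x5)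
  · obtain rfl : o = 0 := h16 (by omega)
    rcases h m hm with h | h
    · exact hmX ((zm m).1 h)
    · exact iso m (by unfold Safe; omega) h (hmi x5)

/-- A set of at most five vertices does not separate, unless it has five elements and one of
them has at most one neighbour in the set, or one side is a single vertex. -/
theorem cut {X : Finset ℕ} (hX : X.card ≤ 5) {c : ℕ → Prop}
    (hc : ∀ x y, adj N x y → x ∉ X → y ∉ X → (c x ↔ c y))
    (hd : X.card = 5 → ∀ x ∈ X, 2 ≤ (X.filter fun y => adj N x y).card)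
    {v w : ℕ} (hv : v < N) (hvX : v ∉ X) (hvi : X.card = 5 → ∃ z, adj N z v ∧ z ∉ X)
    (hw : w < N) (hwX : w ∉ X) (hwi : X.card = 5 → ∃ z, adj N z w ∧ z ∉ X) : c v ↔ c w := by
  classical
  have ex : ∃ m, m ∉ X ∧ (X.card = 5 → ∃ z, adj N z m ∧ z ∉ X) := ⟨v, hvX, hvi⟩
  have key : ∀ v, v < N → v ∉ X → (X.card = 5 → ∃ z, adj N z v ∧ z ∉ X) →
      (c v ↔ c (Nat.find ex)) := by
    intro v
    induction v using Nat.strong_induction_on with
    | _ v ih =>
      intro hv hvX hvi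
      rcases (Nat.find_min' ex ⟨hvX, hvi⟩).eq_or_lt with e | e
      · rw [e]
      obtain ⟨e, e1, e2, e3, e4⟩ := step h4 hN hX hc hd hv hvX hvi e (Nat.find_spec ex).1
        (Nat.find_spec ex).2
      exact e3.trans (ih e e1 (by omega) e2 fun _ => e4)
  exact (key v hv hvX hvi).trans (key w hw hwX hwi).symm

end Pool.Agent.Lib.T5
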