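import Pool.Agent.Lib.MP_4bab84_h56.Cyl
import Pool.Agent.Lib.MP_4bab84_h56.Cut

/-! Models inside a long tube, read along the chain of its cuts. -/

set_option autoImplicit false
set_option linter.unusedSectionVars false

namespace Pool.Agent.Lib.T5

open Pool.Agent.Lib.MP_4bab84_co Finset

/-- The connectivity properties of a tube. -/
structure Rigid {V : Type} (H : SimpleGraph V) : Prop where
  common : ∀ u w, u ≠ w → ∀ S : Finset V, (∀ z ∈ S, H.Adj u z ∧ H.Adj w z) → S.card ≤ 2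
  cut : ∀ X : Finset V, X.card ≤ 5 → ∀ c : V → Prop,
    (∀ x y, H.Adj x y → x ∉ X → y ∉ X → (c x ↔ c y)) →
    (X.card = 5 → ∀ x ∈ X, ∃ y ∈ X, ∃ z ∈ X, y ≠ z ∧ H.Adj x y ∧ H.Adj x z) →
    ∀ v w, v ∉ X → (X.card = 5 → ∃ z, H.Adj z v ∧ z ∉ X) → w ∉ X →
      (X.card = 5 → ∃ z, H.Adj z w ∧ z ∉ X) → (c v ↔ c w)

theorem tube_rigid {N : ℕ} (h4 : N % 4 = 0) (hN : 44 ≤ N) : Rigid (tube N) := by
  classical
  refine ⟨fun u w h S hS => ?_, fun X hX c hc hd v w hv hv' hw hw' => ?_⟩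
  · rw [← card_map Fin.valEmbedding]
    refine common h4 hN (Fin.val_ne_of_ne h) _ fun z hz => ?_
    obtain ⟨y, hy, rfl⟩ := mem_map.1 hz
    exact hS y hy
  · have m : ∀ x : Fin N, x.1 ∉ X.map Fin.valEmbedding ↔ x ∉ X := fun x =>
      not_congr (mem_map' Fin.valEmbedding)
    have k := cut h4 hN (X := X.map Fin.valEmbedding) (by rwa [card_map])
      (c := fun x => ∃ h : x < N, c ⟨x, h⟩) (fun x y h hx hy => by
        have := hc ⟨x, h.symm.lt⟩ ⟨y, h.lt⟩ h ((m _).1 hx) ((m _).1 hy)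
        exact ⟨fun ⟨_, a⟩ => ⟨_, this.1 a⟩, fun ⟨_, a⟩ => ⟨_, this.2 a⟩⟩)
      (fun h x hx => by
        obtain ⟨x, hx', rfl⟩ := mem_map.1 hx
        obtain ⟨y, hy, z, hz, e, h1, h2⟩ := hd (by rwa [card_map] at h) x hx'
        exact one_lt_card.2 ⟨y, mem_filter.2 ⟨mem_map_of_mem _ hy, h1⟩, z,
          mem_filter.2 ⟨mem_map_of_mem _ hz, h2⟩, Fin.val_ne_of_ne e⟩)
      v.2 ((m v).2 hv) (fun h => by
        obtain ⟨z, h1, h2⟩ := hv' (by rwa [card_map] at h)
        exact ⟨z, h1, (m z).2 h2⟩)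
      w.2 ((m w).2 hw) (fun h => by
        obtain ⟨z, h1, h2⟩ := hw' (by rwa [card_map] at h)
        exact ⟨z, h1, (m z).2 h2⟩)
    exact ⟨fun a => (k.1 ⟨v.2, a⟩).2, fun a => (k.2 ⟨w.2, a⟩).2⟩

variable {V : Type} [Fintype V] {H : SimpleGraph V}

lemma Rigid.conn (h : Rigid H) (hV : 6 ≤ Fintype.card V) (X : Finset V) (hX : X.card ≤ 4) :
    (H.induce (X : Set V)ᶜ).Connected := by
  obtain ⟨v, -, hv⟩ := exists_mem_notMem_of_card_lt_card (s := X) (t := univ)
    (by rw [card_univ]; omega)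
  have : Nonempty ((X : Set V)ᶜ : Set V) := ⟨⟨v, hv⟩⟩
  refine ⟨fun a b => ?_⟩
  have k := h.cut X (by omega) (fun x => ∃ hx : x ∈ (X : Set V)ᶜ,
    (H.induce (X : Set V)ᶜ).Reachable a ⟨x, hx⟩) (fun x y e hx hy =>
      ⟨fun ⟨_, r⟩ => ⟨hy, r.trans (SimpleGraph.Adj.reachable (by simpa using e))⟩,
        fun ⟨_, r⟩ => ⟨hx, r.trans (SimpleGraph.Adj.reachable (by simpa using e.symm))⟩⟩)
    (by omega) a b a.2 (by omega) b.2 (by omega)
  exact (k.1 ⟨a.2, SimpleGraph.Reachable.refl _⟩).2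

lemma Rigid.deg (h : Rigid H) (hV : 6 ≤ Fintype.card V) (v : V) (S : Finset V)
    (hS : ∀ z, H.Adj v z → z ∈ S) : 5 ≤ S.card := by
  classical
  by_contra hc
  obtain ⟨w, -, hw⟩ := exists_mem_notMem_of_card_lt_card (s := insert v S) (t := univ)
    (by have := card_insert_le v S; rw [card_univ]; omega)
  have := card_erase_le (s := S) (a := v)
  rw [mem_insert, not_or] at hw
  exact hw.1 ((h.cut (S.erase v) (by omega) (· = v) (fun x y e hx hy =>
    ⟨fun a => absurd (mem_erase.2 ⟨a ▸ e.ne', hS y (a ▸ e)⟩) hy,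
      fun a => absurd (mem_erase.2 ⟨a ▸ e.ne, hS x (a ▸ e.symm)⟩) hx⟩) (by omega) v w
    (notMem_erase v S) (by omega) (fun a => hw.2 (mem_of_mem_erase a)) (by omega)).1 rfl)

/-- An end of the chain absorbs at least two vertices. -/
lemma Rigid.two (h : Rigid H) (hV : 6 ≤ Fintype.card V) (mn mx : V → ℤ) {a b : ℤ}
    (h1 : Function.Injective mn) (h2 : Function.Injective mx)
    (edge : ∀ t, a ≤ t → t ≤ b → ∀ i j, H.Adj i j → mx i < t → mn j < t + 5)
    (small : ∀ t, a ≤ t → t ≤ b → (univ.filter fun i => t ≤ mx i ∧ mn i < t + 5).card ≤ 5)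
    (hb : ∃ i j, i ≠ j ∧ mx i < b ∧ mx j < b) : ∃ i j, i ≠ j ∧ mx i < a ∧ mx j < a := by
  classical
  obtain ⟨i, j, hij, hi, hj⟩ := hb
  obtain ⟨v, -, hv⟩ := exists_min_image univ mx ⟨i, mem_univ _⟩
  have hne : ∃ k, k ≠ v ∧ mx k < b := by
    by_cases e : i = v
    exacts [⟨j, fun e' => hij (e.trans e'.symm), hj⟩, ⟨i, e, hi⟩]
  obtain ⟨k, hk, hkb⟩ := hne
  obtain ⟨u, hu, hm⟩ := exists_min_image (univ.erase v) mx ⟨k, mem_erase.2 ⟨hk, mem_univ _⟩⟩
  have huv : u ≠ v := (mem_erase.1 hu).1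
  have hm' : ∀ z, z ≠ v → mx u ≤ mx z := fun z hz => hm z (mem_erase.2 ⟨hz, mem_univ _⟩)
  have hlt : mx v < mx u := lt_of_le_of_ne (hv u (mem_univ _)) fun e => huv (h2 e).symm
  have := hm' k hk
  by_contra hc
  have ha : a ≤ mx u := not_lt.1 fun e => hc ⟨u, v, huv, e, by omega⟩
  have sm := small (mx u) ha (by omega)
  have sub : (univ.filter fun z => H.Adj v z) ⊆
      univ.filter fun i => mx u ≤ mx i ∧ mn i < mx u + 5 := fun z hz =>
    mem_filter.2 ⟨mem_univ _, hm' z (mem_filter.1 hz).2.ne',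
      edge _ ha (by omega) v z (mem_filter.1 hz).2 hlt⟩
  have e := eq_of_subset_of_card_le sub
    (sm.trans (h.deg hV v _ fun z hz => mem_filter.2 ⟨mem_univ _, hz⟩))
  have c1 := h.common u v huv (univ.filter fun z => H.Adj u z ∧ H.Adj v z)
    fun z hz => (mem_filter.1 hz).2
  have c2 : (univ.filter fun z => mn z = mx u + 5).card ≤ 1 :=
    card_le_one.2 fun x hx y hy => h1 ((mem_filter.1 hx).2.trans (mem_filter.1 hy).2.symm)
  have c3 := h.deg hV u (insert v ((univ.filter fun z => H.Adj u z ∧ H.Adj v z) ∪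
      univ.filter fun z => mn z = mx u + 5)) fun z hz => by
    by_cases e1 : z = v
    · exact mem_insert.2 (Or.inl e1)
    refine mem_insert_of_mem (mem_union.2 ?_)
    have := edge (mx u + 1) (by omega) (by omega) u z hz (by omega)
    by_cases e2 : mn z = mx u + 5
    · exact Or.inr (mem_filter.2 ⟨mem_univ _, e2⟩)
    · have : z ∈ univ.filter fun z => H.Adj v z :=
        e ▸ mem_filter.2 ⟨mem_univ _, hm' z e1, by omega⟩
      exact Or.inl (mem_filter.2 ⟨mem_univ _, hz, (mem_filter.1 this).2⟩)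
  have c4 := (card_insert_le _ _).trans' c3
  have c5 := card_union_le (univ.filter fun z => H.Adj u z ∧ H.Adj v z)
    (univ.filter fun z => mn z = mx u + 5)
  omega

/-- A model of `H` in the tube with `M` vertices, in terms of numbers. -/
structure Sys (H : SimpleGraph V) (M : ℕ) where
  O : V → ℕ → Prop
  mn : V → ℕ
  mx : V → ℕ
  uniq : ∀ {i j x}, O i x → O j x → i = j
  o_mn : ∀ i, O i (mn i)
  o_mx : ∀ i, O i (mx i)
  bd : ∀ {i x}, O i x → mn i ≤ x ∧ x ≤ mx i ∧ x < M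
  meet : ∀ {t i}, 6 ≤ t → t + 11 ≤ M → t ≤ mx i → mn i < t + 5 → ∃ x, O i x ∧ t ≤ x ∧ x < t + 5
  edge : ∀ {i j}, H.Adj i j → ∃ x y, O i x ∧ O j y ∧ adj M x y
  ind : ∀ {i j x y}, O i x → O j y → adj M x y → i = j ∨ H.Adj i j

lemma band {M t x y : ℕ} (h : adj M x y) (h1 : 6 ≤ t) (h2 : t + 11 ≤ M) (hx : x < t) :
    y < t + 5 := by
  unfold adj arc at h; omega

lemma sys_of_model {H : FinGraph} {M : ℕ} (h : Model H ⟨M, tube M⟩) : Nonempty (Sys H.2 M) := by
  obtain ⟨B, hc, hd, ha⟩ := h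
  have ne : ∀ i, (B i).Nonempty := fun i => by
    obtain ⟨v⟩ := (hc i).nonempty
    exact ⟨v.1, v.2⟩
  choose mn h1 h2 using fun i => Set.exists_min_image (B i) id (Set.toFinite _) (ne i)
  choose mx h3 h4 using fun i => Set.exists_max_image (B i) id (Set.toFinite _) (ne i)
  refine ⟨⟨fun i x => ∃ h : x < M, (⟨x, h⟩ : Fin M) ∈ B i, fun i => mn i, fun i => mx i, ?_,
    fun i => ⟨_, h1 i⟩, fun i => ⟨_, h3 i⟩, ?_, ?_, ?_, ?_⟩⟩
  · rintro i j x ⟨_, a⟩ ⟨_, b⟩
    exact by_contra fun e => Set.disjoint_left.1 (hd i j e) a b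
  · rintro i x ⟨h, a⟩
    exact ⟨h2 i _ a, h4 i _ a, h⟩
  · intro t i t1 t2 a b
    by_contra hn
    have k : ∀ x ∈ B i, x.1 < t + 5 → x.1 < t := fun x hx e =>
      not_le.1 fun e' => hn ⟨x, ⟨x.2, hx⟩, e', e⟩
    have : ∀ y : B i, Relation.ReflTransGen ((tube M).induce (B i)).Adj ⟨mn i, h1 i⟩ y →
        y.1.1 < t := fun y hy => by
      induction hy with
      | refl => exact k _ (h1 i) b
      | @tail c d _ e ih => exact k _ d.2 (band (x := c.1.1) e t1 t2 ih)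
    exact absurd (this ⟨mx i, h3 i⟩ ((SimpleGraph.reachable_iff_reflTransGen _ _).1
      ((hc i).preconnected _ _))) (not_lt.2 a)
  · intro i j e
    obtain ⟨u, hu, v, hv, e⟩ := (ha i j e.ne).1 e
    exact ⟨u, v, ⟨u.2, hu⟩, ⟨v.2, hv⟩, e⟩
  · rintro i j x y ⟨_, a⟩ ⟨_, b⟩ e
    exact or_iff_not_imp_left.2 fun hne => (ha i j hne).2 ⟨_, a, _, b, e⟩

namespace Sys

variable {M : ℕ} (σ : Sys H M)

/-- The vertices whose branch sets meet the cut at `t`. -/
def X (t : ℕ) : Finset V := univ.filter fun i => t ≤ σ.mx i ∧ σ.mn i < t + 5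
def L (t : ℕ) : Finset V := univ.filter fun i => σ.mx i < t
def R (t : ℕ) : Finset V := univ.filter fun i => t + 5 ≤ σ.mn i

lemma mem_X {t : ℕ} {i : V} : i ∈ σ.X t ↔ t ≤ σ.mx i ∧ σ.mn i < t + 5 := by simp [X]
lemma mem_L {t : ℕ} {i : V} : i ∈ σ.L t ↔ σ.mx i < t := by simp [L]
lemma mem_R {t : ℕ} {i : V} : i ∈ σ.R t ↔ t + 5 ≤ σ.mn i := by simp [R]

lemma mn_inj : Function.Injective σ.mn := fun i j e => σ.uniq (σ.o_mn i) (e ▸ σ.o_mn j)
lemma mx_inj : Function.Injective σ.mx := fun i j e => σ.uniq (σ.o_mx i) (e ▸ σ.o_mx j)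
lemma mn_le (i : V) : σ.mn i ≤ σ.mx i ∧ σ.mx i < M :=
  ⟨(σ.bd (σ.o_mx i)).1, (σ.bd (σ.o_mx i)).2.2⟩

lemma edge' {t : ℕ} (h1 : 6 ≤ t) (h2 : t + 11 ≤ M) {i j : V} (h : H.Adj i j) (hi : σ.mx i < t) :
    σ.mn j < t + 5 := by
  obtain ⟨x, y, a, b, e⟩ := σ.edge h
  have := σ.bd a
  have := σ.bd b
  have := band e h1 h2 (by omega)
  omega

lemma small {t : ℕ} (h1 : 6 ≤ t) (h2 : t + 11 ≤ M) : (σ.X t).card ≤ 5 ∧ ((σ.X t).card = 5 →
    (∀ x, t ≤ x → x < t + 5 → ∃ i, σ.O i x) ∧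
    ∀ i x y, t ≤ x → x < t + 5 → t ≤ y → y < t + 5 → σ.O i x → σ.O i y → x = y) := by
  have : ∀ i ∈ σ.X t, ∃ x, σ.O i x ∧ x ∈ Ico t (t + 5) := fun i hi => by
    obtain ⟨x, a, b⟩ := σ.meet h1 h2 (σ.mem_X.1 hi).1 (σ.mem_X.1 hi).2
    exact ⟨x, a, mem_Ico.2 b⟩
  choose! f h3 h4 using this
  have inj : ∀ i j, i ∈ σ.X t → j ∈ σ.X t → f i = f j → i = j := fun i j hi hj e =>
    σ.uniq (h3 i hi) (e ▸ h3 j hj)
  refine ⟨by simpa using card_le_card_of_injOn f h4 fun i hi j hj => inj i j hi hj, fun h => ?_⟩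
  have su := surj_on_of_inj_on_of_card_le (fun i _ => f i) h4 (fun i j hi hj => inj i j hi hj)
    (by simp [h])
  refine ⟨fun x a b => ?_, fun i x y a b c d e1 e2 => ?_⟩
  · obtain ⟨i, hi, rfl⟩ := su x (mem_Ico.2 ⟨a, b⟩)
    exact ⟨i, h3 i hi⟩
  · obtain ⟨j, hj, rfl⟩ := su x (mem_Ico.2 ⟨a, b⟩)
    obtain ⟨k, hk, rfl⟩ := su y (mem_Ico.2 ⟨c, d⟩)
    rw [σ.uniq (h3 j hj) e1, σ.uniq (h3 k hk) e2]

lemma card_mx (s n : ℕ) : (univ.filter fun i => s ≤ σ.mx i ∧ σ.mx i < s + n).card ≤ n := by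
  simpa using card_le_card_of_injOn (t := Ico s (s + n)) σ.mx
    (fun i hi => mem_Ico.2 (mem_filter.1 hi).2) σ.mx_inj.injOn

lemma L_add (t n : ℕ) : (σ.L (t + n)).card ≤ (σ.L t).card + n := by
  classical
  refine le_trans (card_le_card (t := σ.L t ∪ univ.filter fun i => t ≤ σ.mx i ∧ σ.mx i < t + n)
    fun i hi => ?_) ((card_union_le _ _).trans (Nat.add_le_add_left (σ.card_mx t n) _))
  simp only [mem_union, mem_L, mem_filter, mem_univ, true_and] at hi ⊢
  omega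

lemma L_le (t : ℕ) : (σ.L t).card ≤ t := by
  have := σ.L_add 0 t
  rwa [zero_add, show σ.L 0 = ∅ by ext; simp [mem_L], card_empty, zero_add] at this

lemma R_le {t : ℕ} (h : t + 11 = M) : (σ.R t).card ≤ 6 := by
  simpa using card_le_card_of_injOn (t := Ico (t + 5) (t + 5 + 6)) σ.mn (fun i hi => by
    have := σ.mn_le i
    have := σ.mem_R.1 hi
    exact mem_Ico.2 (by omega)) σ.mn_inj.injOn

lemma total (t : ℕ) : Fintype.card V ≤ (σ.L t).card + (σ.X t).card + (σ.R t).card := by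
  classical
  refine le_trans (card_le_card (s := univ) (t := σ.L t ∪ σ.X t ∪ σ.R t) fun i _ => ?_)
    ((card_union_le _ _).trans (Nat.add_le_add_right (card_union_le _ _) _))
  simp only [mem_union, mem_L, mem_X, mem_R]
  omega

include σ in
theorem not_rigid (h : Rigid H) (hV : 13 ≤ Fintype.card V) (hM : 4 * Fintype.card V + 21 ≤ M) :
    False := by
  classical
  have : Nonempty V := Fintype.card_pos_iff.1 (by omega)
  obtain ⟨b, hb⟩ : ∃ b, b + 11 = M := ⟨M - 11, by omega⟩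
  have hL : ∃ i j, i ≠ j ∧ σ.mx i < 6 ∧ σ.mx j < 6 := by
    obtain ⟨i, j, e, h1, h2⟩ := h.two (by omega) (fun i => σ.mn i) (fun i => σ.mx i)
      (a := 6) (b := b) (fun i j e => σ.mn_inj (by simpa using e))
      (fun i j e => σ.mx_inj (by simpa using e)) (fun t h1 h2 i j e hi => by
        have := σ.edge' (t := t.toNat) (by omega) (by omega) e (by omega)
        omega)
      (fun t h1 h2 => (card_le_card fun i hi => σ.mem_X.2 (by
        have := (mem_filter.1 hi).2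
        omega)).trans (σ.small (t := t.toNat) (by omega) (by omega)).1) (by
        have := σ.total b
        have := σ.R_le hb
        have := (σ.small (t := b) (by omega) hb.le).1
        obtain ⟨i, hi, j, hj, e⟩ := one_lt_card.1 (show 1 < (σ.L b).card by omega)
        exact ⟨i, j, e, by exact_mod_cast σ.mem_L.1 hi, by exact_mod_cast σ.mem_L.1 hj⟩)
    exact ⟨i, j, e, by omega, by omega⟩
  have hR : ∃ i j, i ≠ j ∧ b + 5 ≤ σ.mn i ∧ b + 5 ≤ σ.mn j := by
    obtain ⟨i, j, e, h1, h2⟩ := h.two (by omega) (fun i => -σ.mx i) (fun i => -σ.mn i)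
      (a := -b - 4) (b := -10) (fun i j e => σ.mx_inj (by simpa using e))
      (fun i j e => σ.mn_inj (by simpa using e)) (fun t h1 h2 i j e hi => by
        by_contra hc
        have := σ.edge' (t := (-t - 4).toNat) (by omega) (by omega) e.symm (by omega)
        omega)
      (fun t h1 h2 => (card_le_card fun i hi => σ.mem_X.2 (by
        have := (mem_filter.1 hi).2
        omega)).trans (σ.small (t := (-t - 4).toNat) (by omega) (by omega)).1) (by
        have := σ.total 6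
        have := σ.L_le 6
        have := (σ.small (t := 6) le_rfl (by omega)).1
        obtain ⟨i, hi, j, hj, e⟩ := one_lt_card.1 (show 1 < (σ.R 6).card by omega)
        have := σ.mem_R.1 hi
        have := σ.mem_R.1 hj
        exact ⟨i, j, e, by omega, by omega⟩)
    exact ⟨i, j, e, by omega, by omega⟩
  have nocut : ∀ t, 6 ≤ t → t ≤ b → ((σ.X t).card = 5 → ∀ x ∈ σ.X t, ∃ y ∈ σ.X t, ∃ z ∈ σ.X t,
      y ≠ z ∧ H.Adj x y ∧ H.Adj x z) → False := fun t h1 h2 hd => by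
    have pick : ∀ i j, i ≠ j → ((σ.X t).card = 5 → ∃ z, H.Adj z i ∧ z ∉ σ.X t) ∨
        ((σ.X t).card = 5 → ∃ z, H.Adj z j ∧ z ∉ σ.X t) := fun i j e => by
      by_contra hc
      push Not at hc
      obtain ⟨⟨c, c1⟩, -, c2⟩ := hc
      have k : ∀ i, (∀ z, H.Adj z i → z ∈ σ.X t) → ∀ z ∈ σ.X t, H.Adj i z := fun i c z hz => by
        have := eq_of_subset_of_card_le (s := univ.filter fun z => H.Adj i z) (t := σ.X t)
          (fun z hz => c z (mem_filter.1 hz).2.symm)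
          (‹(σ.X t).card = 5› ▸ h.deg (by omega) i _ fun z hz => mem_filter.2 ⟨mem_univ _, hz⟩)
        exact (mem_filter.1 (this ▸ hz :)).2
      have := h.common i j e (σ.X t) fun z hz => ⟨k i c1 z hz, k j c2 z hz⟩
      omega
    obtain ⟨v, hv, hv'⟩ : ∃ v, σ.mx v < 6 ∧ ((σ.X t).card = 5 → ∃ z, H.Adj z v ∧ z ∉ σ.X t) := by
      obtain ⟨i, j, e, a, b⟩ := hL
      exact (pick i j e).elim (fun c => ⟨i, a, c⟩) fun c => ⟨j, b, c⟩
    obtain ⟨w, hw, hw'⟩ : ∃ v, b + 5 ≤ σ.mn v ∧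
        ((σ.X t).card = 5 → ∃ z, H.Adj z v ∧ z ∉ σ.X t) := by
      obtain ⟨i, j, e, a, b⟩ := hR
      exact (pick i j e).elim (fun c => ⟨i, a, c⟩) fun c => ⟨j, b, c⟩
    have k : ∀ x y, H.Adj x y → y ∉ σ.X t → σ.mx x < t → σ.mx y < t := fun x y e hy hx => by
      have := σ.edge' h1 (by omega) e hx
      rw [mem_X] at hy; omega
    have := (h.cut (σ.X t) (σ.small h1 (by omega)).1 (fun i => σ.mx i < t)
      (fun x y e hx hy => ⟨k x y e hy, k y x e.symm hx⟩) hd v w (by rw [mem_X]; omega) hv'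
      (by rw [mem_X]; omega) hw').1 (by omega)
    have := σ.mn_le w
    omega
  have full := fun t (h1 : 6 ≤ t) (h2 : t ≤ b) => (σ.small h1 (by omega)).2
    (by_contra fun e => nocut t h1 h2 fun e' => absurd e' e)
  obtain ⟨k, hk, gap⟩ : ∃ k ≤ Fintype.card V, ∀ i, 6 + 4 * k ≤ σ.mx i → 10 + 4 * k ≤ σ.mx i := by
    by_contra hc
    push Not at hc
    choose! f h1 h2 using hc
    have := card_le_card_of_injOn (s := range (Fintype.card V + 1)) (t := univ) f
      (fun _ _ => mem_univ _) fun i hi j hj e => by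
        have hi := Nat.lt_succ_iff.1 (mem_range.1 hi)
        have hj := Nat.lt_succ_iff.1 (mem_range.1 hj)
        have := h1 i hi; have := h2 i hi; have := h1 j hj; have := h2 j hj
        rw [e] at *
        omega
    simp at this
  obtain ⟨t, ht⟩ : ∃ t, t = 6 + 4 * k := ⟨_, rfl⟩
  have : ∀ x, t ≤ x → x < t + 9 → ∃ i, σ.O i x := fun x h1 h2 => by
    by_cases e : x < t + 5
    · exact (full t (by omega) (by omega)).1 x h1 e
    · exact (full (t + 4) (by omega) (by omega)).1 x (by omega) h2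
  choose! o ho using this
  have per : ∀ s, t ≤ s → s < t + 4 → o (s + 5) = o s := fun s h1 h2 => by
    have a := ho s h1 (by omega)
    have := σ.bd a
    have := gap (o s) (by omega)
    obtain ⟨x, c, d, e⟩ := σ.meet (t := s + 1) (i := o s) (by omega) (by omega) (by omega)
      (by omega)
    have : x = s + 5 := by_contra fun f => by
      have := (full s (by omega) (by omega)).2 _ s x le_rfl (by omega) (by omega) (by omega) a c
      omega
    exact σ.uniq (ho _ (by omega) (by omega)) (this ▸ c)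
  have ne : ∀ s x y, t ≤ s → s ≤ t + 4 → s ≤ x → x < y → y < s + 5 → o x ≠ o y :=
    fun s x y h1 h2 h3 h4 h5 e => by
      have := (full s (by omega) (by omega)).2 _ x y h3 (by omega) (by omega) h5
        (ho x (by omega) (by omega)) (e ▸ ho y (by omega) (by omega))
      omega
  have ad : ∀ s, t ≤ s → s ≤ t + 4 → H.Adj (o s) (o (s + 4)) := fun s h1 h2 =>
    (σ.ind (ho s h1 (by omega)) (ho _ (by omega) (by omega))
      (Or.inl ⟨by omega, Or.inl rfl⟩)).resolve_left (ne s _ _ h1 h2 le_rfl (by omega) (by omega))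
  have mX : ∀ x, t ≤ x → x < t + 5 → o x ∈ σ.X t := fun x h1 h2 => by
    have := σ.bd (ho x h1 (by omega))
    rw [mem_X]; omega
  have a0 := ad t le_rfl (by omega)
  have a1 := per t le_rfl (by omega) ▸ ad (t + 1) (by omega) (by omega)
  have a2 := per (t + 1) (by omega) (by omega) ▸ ad (t + 2) (by omega) (by omega)
  have a3 := per (t + 2) (by omega) (by omega) ▸ ad (t + 3) (by omega) (by omega)
  have a4 := per (t + 3) (by omega) (by omega) ▸ ad (t + 4) (by omega) (by omega)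
  refine nocut t (by omega) (by omega) fun _ x hx => ?_
  obtain ⟨y, c, d, e⟩ := σ.meet (by omega) (by omega) (σ.mem_X.1 hx).1 (σ.mem_X.1 hx).2
  obtain rfl := σ.uniq (ho y d (by omega)) c
  have k : ∀ p q, t ≤ p → p < q → q < t + 5 → H.Adj (o y) (o p) → H.Adj (o y) (o q) →
      ∃ a ∈ σ.X t, ∃ z ∈ σ.X t, a ≠ z ∧ H.Adj (o y) a ∧ H.Adj (o y) z := fun p q h1 h2 h3 h4 h5 =>
    ⟨_, mX p h1 (by omega), _, mX q (by omega) h3, ne t p q le_rfl (by omega) h1 h2 h3, h4, h5⟩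
  obtain rfl | rfl | rfl | rfl | rfl : y = t ∨ y = t + 1 ∨ y = t + 2 ∨ y = t + 3 ∨ y = t + 4 := by
    omega
  · exact k _ _ (by omega) (by omega) (by omega) a1.symm a0
  · exact k _ _ (by omega) (by omega) (by omega) a1 a2.symm
  · exact k _ _ (by omega) (by omega) (by omega) a2 a3.symm
  · exact k _ _ (by omega) (by omega) (by omega) a3 a4.symm
  · exact k _ _ (by omega) (by omega) (by omega) a0.symm a4

end Sys

end Pool.Agent.Lib.T5
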