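import Mathlib

/-! Five-connected planar tubes: the graphs and their local connectivity properties. -/

set_option autoImplicit false

namespace Pool.Agent.Lib.T5

/-- Oriented adjacency of the tube with `N` vertices. -/
def arc (N u w : ℕ) : Prop :=
  w < N ∧ (w = u + 4 ∨ w = u + 5 ∨ (w = u + 1 ∧ (u % 4 ≠ 1 ∨ u < 5 ∨ N < u + 7)) ∨
    (u = 0 ∧ (w = 2 ∨ w = 3)) ∨ (u = 1 ∧ w = 10) ∨ (w + 1 = N ∧ (u + 3 = N ∨ u + 4 = N)) ∨
    (w + 2 = N ∧ u + 11 = N))

instance (N u w : ℕ) : Decidable (arc N u w) := by unfold arc; infer_instance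

def adj (N u w : ℕ) : Prop := arc N u w ∨ arc N w u

instance (N u w : ℕ) : Decidable (adj N u w) := by unfold adj; infer_instance

lemma adj.symm {N u w : ℕ} (h : adj N u w) : adj N w u := Or.symm h
lemma adj.ne {N u w : ℕ} (h : adj N u w) : u ≠ w := by unfold adj arc at h; omega
lemma adj.lt {N u w : ℕ} (h : adj N u w) : w < N := by unfold adj arc at h; omega

/-- Vertices of the window that can be shifted by `o`. -/
def Safe (N o x : ℕ) : Prop := x < 44 ∧ (o = 0 ∨ 11 ≤ x) ∧ (o + 44 = N ∨ x ≤ 32)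

section shift
variable {N o : ℕ} (h4 : N % 4 = 0) (ho : o % 4 = 0) (hN : o + 44 ≤ N)
include h4 ho hN

lemma arc_shift {x y : ℕ} (hx : Safe N o x) (hy : Safe N o y) :
    arc N (x + o) (y + o) ↔ arc 44 x y := by
  unfold Safe at hx hy; unfold arc; omega

lemma adj_shift {x y : ℕ} (hx : Safe N o x) (hy : Safe N o y) :
    adj N (x + o) (y + o) ↔ adj 44 x y := by
  unfold adj; rw [arc_shift h4 ho hN hx hy, arc_shift h4 ho hN hy hx]

lemma adj_full {x z : ℕ} (hx : Safe N o x) (h : adj N (x + o) z) :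
    ∃ y, z = y + o ∧ adj 44 x y := by
  refine ⟨z - o, ?_, ?_⟩
  · unfold Safe at hx; unfold adj arc at h; omega
  · unfold Safe at hx
    rcases h with h | h
    · left; unfold arc at h ⊢; omega
    · right; unfold arc at h ⊢; omega

end shift

/-- The range allowed for the certificate of `v`. -/
def Rg (v x : ℕ) : Prop := x < 44 ∧ (v < 16 ∨ 11 ≤ x) ∧ (20 ≤ v ∨ x ≤ 32)

instance (v x : ℕ) : Decidable (Rg v x) := by unfold Rg; infer_instance

lemma window {N : ℕ} (h4 : N % 4 = 0) (hN : 44 ≤ N) {v : ℕ} (hv : v < N) :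
    ∃ o v0, v = v0 + o ∧ o % 4 = 0 ∧ o + 44 ≤ N ∧ v0 < 44 ∧ (v0 < 16 → o = 0) ∧
      ∀ x, Rg v0 x → Safe N o x := by
  by_cases h1 : v < 16
  · exact ⟨0, v, rfl, rfl, by omega, by omega, fun _ => rfl, fun x hx => by
      unfold Rg at hx; unfold Safe; omega⟩
  by_cases h2 : N ≤ v + 28
  · exact ⟨N - 44, v - (N - 44), by omega, by omega, by omega, by omega, by omega, fun x hx => by
      unfold Rg at hx; unfold Safe; omega⟩
  · exact ⟨(v - 16) / 4 * 4, v - (v - 16) / 4 * 4, by omega, by omega, by omega, by omega,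
      by omega, fun x hx => by unfold Rg at hx; unfold Safe; omega⟩

/-- Candidate paths from each vertex of the window to a smaller vertex. -/
def cand : List (List (List ℕ)) :=
  [[],
   [[0]],
   [[0], [1]],
   [[0], [2], [4, 5, 1], [7, 6, 1], [7, 11, 10, 1], [8, 9, 5, 1], [4, 9, 14, 10, 1], [8, 9, 14, 10, 1], [8, 12, 11, 6, 1]],
   [[0], [3], [5, 1], [8, 7, 2], [5, 10, 6, 2], [8, 7, 6, 1], [9, 14, 10, 1], [5, 10, 11, 7, 2], [8, 12, 11, 6, 1], [8, 12, 11, 6, 2], [9, 13, 12, 7, 2]],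
   [[0], [1], [4], [9, 8, 3], [10, 6, 2], [9, 8, 7, 2], [10, 6, 7, 3], [10, 11, 7, 2], [9, 13, 12, 7, 2]],
   [[1], [2], [7, 3], [10, 5], [7, 8, 4], [7, 8, 9, 5], [10, 14, 9, 4], [11, 12, 8, 3], [11, 12, 8, 4], [7, 12, 13, 9, 4], [11, 12, 13, 9, 4], [11, 15, 14, 9, 4]],
   [[2], [3], [6], [8, 4], [8, 9, 5], [11, 10, 1], [11, 10, 5], [12, 13, 9, 4]],
   [[3], [4], [7], [9, 5], [12, 11, 6], [9, 14, 10, 1], [12, 11, 10, 1], [12, 16, 15, 10, 1], [13, 17, 16, 11, 6]],
   [[4], [5], [8], [13, 12, 7], [14, 10, 1], [14, 10, 6], [13, 12, 11, 6], [14, 15, 11, 6], [13, 17, 16, 11, 6]],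
   [[1], [5], [6], [11, 7], [14, 9], [11, 12, 8], [14, 18, 13, 8], [15, 16, 12, 7]],
   [[6], [7], [10], [12, 8], [12, 13, 9], [15, 14, 9], [16, 17, 13, 8]],
   [[7], [8], [11], [13, 9], [16, 15, 10], [13, 18, 14, 10], [16, 15, 14, 9], [16, 20, 19, 14, 9], [17, 21, 20, 15, 10]],
   [[8], [9], [12], [17, 16, 11], [18, 14, 10], [17, 16, 15, 10], [18, 14, 15, 11], [18, 19, 15, 10], [17, 21, 20, 15, 10]],
   [[9], [10], [15, 11], [18, 13], [15, 16, 12], [15, 16, 17, 13], [18, 22, 17, 12], [19, 20, 16, 11], [19, 20, 16, 12], [15, 20, 21, 17, 12], [19, 20, 21, 17, 12], [19, 23, 22, 17, 12]],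
   [[10], [11], [14], [16, 12], [16, 17, 13], [19, 18, 13], [20, 21, 17, 12]],
   [[11], [12], [15], [17, 13], [20, 19, 14], [17, 22, 18, 14], [20, 19, 18, 13], [20, 24, 23, 18, 13], [21, 25, 24, 19, 14]],
   [[12], [13], [16], [21, 20, 15], [22, 18, 14], [21, 20, 19, 14], [22, 18, 19, 15], [22, 23, 19, 14], [21, 25, 24, 19, 14]],
   [[13], [14], [19, 15], [22, 17], [19, 20, 16], [19, 20, 21, 17], [22, 26, 21, 16], [23, 24, 20, 15], [23, 24, 20, 16], [19, 24, 25, 21, 16], [23, 24, 25, 21, 16], [23, 27, 26, 21, 16]],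
   [[14], [15], [18], [20, 16], [20, 21, 17], [23, 22, 17], [24, 25, 21, 16]],
   [[15], [16], [19], [21, 17], [24, 23, 18], [21, 26, 22, 18], [24, 23, 22, 17], [24, 28, 27, 22, 17], [25, 29, 28, 23, 18]],
   [[16], [17], [20], [25, 24, 19], [26, 22, 18], [25, 24, 23, 18], [26, 22, 23, 19], [26, 27, 23, 18], [25, 29, 28, 23, 18]],
   [[17], [18], [23, 19], [26, 21], [23, 24, 20], [23, 24, 25, 21], [26, 30, 25, 20], [27, 28, 24, 19], [27, 28, 24, 20], [23, 28, 29, 25, 20], [27, 28, 29, 25, 20], [27, 31, 30, 25, 20]],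
   [[18], [19], [22], [24, 20], [24, 25, 21], [27, 26, 21], [28, 29, 25, 20]],
   [[19], [20], [23], [25, 21], [28, 27, 22], [25, 30, 26, 22], [28, 27, 26, 21], [28, 32, 31, 26, 21], [29, 33, 32, 27, 22]],
   [[20], [21], [24], [29, 28, 23], [30, 26, 22], [29, 28, 27, 22], [30, 26, 27, 23], [30, 31, 27, 22], [29, 33, 32, 27, 22]],
   [[21], [22], [27, 23], [30, 25], [27, 28, 24], [27, 28, 29, 25], [30, 34, 29, 24], [31, 32, 28, 23], [31, 32, 28, 24], [27, 32, 33, 29, 24], [31, 32, 33, 29, 24], [31, 35, 34, 29, 24]],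
   [[22], [23], [26], [28, 24], [28, 29, 25], [31, 30, 25], [32, 33, 29, 24]],
   [[23], [24], [27], [29, 25], [32, 31, 26], [29, 34, 30, 26], [32, 31, 30, 25], [32, 36, 35, 30, 25], [33, 37, 36, 31, 26]],
   [[24], [25], [28], [33, 32, 27], [34, 30, 26], [33, 32, 31, 26], [34, 30, 31, 27], [34, 35, 31, 26], [33, 37, 36, 31, 26]],
   [[25], [26], [31, 27], [34, 29], [31, 32, 28], [31, 32, 33, 29], [34, 38, 33, 28], [35, 36, 32, 27], [35, 36, 32, 28], [31, 36, 37, 33, 28], [35, 36, 37, 33, 28], [35, 39, 38, 33, 28]],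
   [[26], [27], [30], [32, 28], [32, 33, 29], [35, 34, 29], [36, 37, 33, 28]],
   [[27], [28], [31], [33, 29], [36, 35, 30], [33, 38, 34, 30], [36, 35, 34, 29], [36, 40, 39, 34, 29], [37, 41, 40, 35, 30]],
   [[28], [29], [32], [37, 36, 31], [38, 34, 30], [37, 36, 35, 30], [38, 34, 35, 31], [38, 39, 35, 30], [42, 41, 36, 31], [37, 41, 40, 35, 30]],
   [[29], [30], [35, 31], [38, 33], [35, 36, 32], [35, 36, 37, 33], [38, 42, 37, 32], [39, 40, 36, 31], [39, 40, 36, 32], [39, 43, 42, 33]],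
   [[30], [31], [34], [36, 32], [36, 37, 33], [39, 38, 33], [39, 43, 42, 33], [40, 41, 37, 32]],
   [[31], [32], [35], [37, 33], [40, 39, 34], [41, 42, 33], [37, 42, 38, 34]],
   [[32], [33], [36], [41, 40, 35], [42, 38, 34], [41, 40, 39, 34], [41, 43, 38, 34], [41, 43, 39, 34], [41, 43, 39, 35], [42, 38, 39, 35], [42, 43, 39, 34]],
   [[33], [34], [39, 35], [42, 37], [39, 40, 36], [42, 41, 36], [43, 40, 35], [43, 40, 36], [43, 41, 36], [43, 41, 37]],
   [[34], [35], [38], [40, 36], [40, 41, 37], [43, 41, 36], [43, 41, 37], [43, 42, 33]],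
   [[35], [36], [39], [41, 37], [43, 38], [41, 42, 33], [43, 42, 33]],
   [[36], [37], [40], [42, 33], [42, 38], [43, 38], [43, 39]],
   [[33], [37], [38], [41], [43, 39], [43, 40]],
   [[38], [39], [40], [41], [42]]]

/-- `p` is a walk starting next to `y`, inside the range of `v`, ending below `v`. -/
def okp (v : ℕ) : ℕ → List ℕ → Bool
  | y, [] => decide (y < v)
  | y, z :: p => decide (adj 44 y z) && decide (Rg v z) && okp v z p

def nbs (v : ℕ) : List ℕ := (List.range 44).filter fun z => decide (adj 44 v z)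

def exc (v : ℕ) (Y : List ℕ) : Bool :=
  Y.any (fun y => decide ((Y.filter fun z => decide (adj 44 y z)).length < 2)) ||
    (nbs v).all (fun z => decide (z ∈ Y)) ||
    (decide (v < 12) && (List.range v).all fun w =>
      decide (w ∈ Y) || (nbs w).all fun z => decide (z ∈ Y))

def chk (v u : ℕ) (C : List (List ℕ)) : ℕ → List ℕ → Bool
  | 0, Y => C.any (fun p => p.all fun x => decide (x ∉ Y)) || exc v Y
  | k + 1, Y => match C.find? (fun p => p.all fun x => decide (x ∉ Y)) with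
    | some p => p.all fun x => decide (x = u) || chk v u C k (x :: Y)
    | none => false

def top (v : ℕ) : Bool :=
  (cand.getD v []).all (okp v v) && (if v < 5 then List.range v else [v]).all
    (fun u => chk v u (cand.getD v []) 5 []) &&
    (nbs v).all (fun z => decide (Rg v z)) && decide (Rg v v) &&
    (List.range 44).all fun w => decide (w = v) ||
      decide (((nbs v).filter fun z => decide (adj 44 w z)).length ≤ 2)

lemma top_all : (List.range 44).all top = true := by decide +kernel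

lemma mem_nbs {v z : ℕ} : z ∈ nbs v ↔ adj 44 v z := by
  simp only [nbs, List.mem_filter, List.mem_range, decide_eq_true_eq]
  exact ⟨fun h => h.2, fun h => ⟨h.lt, h⟩⟩

end Pool.Agent.Lib.T5
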