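import Pool.Agent.Lib.MP_4bab84_h56.Grid
import Pool.Agent.Lib.MP_4bab84_h56.Loc

/-! The tubes are minors of the grid. -/

set_option autoImplicit false

namespace Pool.Agent.Lib.T5

open Pool.Agent.Lib.MP_4bab84_co

/-- The tube with `N` vertices. -/
def tube (N : ℕ) : SimpleGraph (Fin N) where
  Adj u w := adj N u w
  symm := ⟨fun _ _ h => h.symm⟩
  loopless := ⟨fun _ h => h.ne rfl⟩

lemma descend {S : Set Z2} {P : Z2 → Prop} {r : Z2} (μ : Z2 → ℤ) (hS : ∀ p, P p → p ∈ S)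
    (h : ∀ p, P p → p ≠ r → ∃ q, grid.Adj p q ∧ P q ∧ 0 ≤ μ q ∧ μ q < μ p) (p : Z2) (hp : P p) :
    Relation.ReflTransGen (fun p q => grid.Adj p q ∧ p ∈ S) p r := by
  induction hn : (μ p).toNat using Nat.strong_induction_on generalizing p with
  | _ n ih =>
    by_cases e : p = r
    · rw [e]
    · obtain ⟨q, h1, h2, h3, h4⟩ := h p hp e
      exact (ih _ (by omega) q h2 rfl).head ⟨h1, hS p hp⟩

def rad (p : Z2) : ℤ := max (max p.1 (-p.1)) (max p.2 (-p.2))
def col (p : Z2) : ℤ := if p.1 = rad p ∧ 0 ≤ p.2 ∧ p.2 ≤ 6 then p.2 else 6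

lemma ring_path {S : Set Z2} {ρ : ℤ} (hρ : 7 ≤ ρ) (hS : ∀ p, rad p = ρ ∧ col p = 6 → p ∈ S) :
    ∀ p, rad p = ρ ∧ col p = 6 →
      Relation.ReflTransGen (fun p q => grid.Adj p q ∧ p ∈ S) p (ρ, 6) := by
  have e : ∀ p : Z2, (rad p = ρ ∧ col p = 6) ↔ (-ρ ≤ p.1 ∧ p.1 ≤ ρ ∧ -ρ ≤ p.2 ∧ p.2 ≤ ρ ∧
      (p.1 = -ρ ∨ p.2 = ρ ∨ p.2 = -ρ ∨ (p.1 = ρ ∧ (p.2 < 0 ∨ 6 ≤ p.2)))) := fun p => by
    unfold col
    constructor
    · rintro ⟨h1, h2⟩; rw [h1] at h2; unfold rad at h1; omega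
    · intro h
      have h1 : rad p = ρ := by unfold rad; omega
      rw [h1]; omega
  refine descend (fun p => if p.1 = ρ ∧ 6 ≤ p.2 then p.2 else if p.2 = ρ then 2 * ρ - p.1 else
    if p.1 = -ρ then 4 * ρ - p.2 else if p.2 = -ρ then 6 * ρ + p.1 else 8 * ρ + p.2) hS ?_
  rintro ⟨x, y⟩ hp hne
  simp only [e, grid_adj, ne_eq, Prod.mk.injEq] at hp hne ⊢
  by_cases h1 : x = ρ ∧ 6 ≤ y
  · exact ⟨(x, y - 1), by dsimp only; omega⟩
  by_cases h2 : y = ρ
  · exact ⟨(x + 1, y), by dsimp only; omega⟩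
  by_cases h3 : x = -ρ
  · exact ⟨(x, y + 1), by dsimp only; omega⟩
  by_cases h4 : y = -ρ
  · exact ⟨(x - 1, y), by dsimp only; omega⟩
  · exact ⟨(x, y - 1), by dsimp only; omega⟩

/-- The owner of column `y` on the ring of radius `x`. -/
def ow (N x y : ℤ) : ℤ :=
  if x < 8 then 0 else if N + 4 ≤ x then N - 1 else if y = 1 ∧ x ≤ 13 then 1 else
  if y = 5 ∧ N - 2 ≤ x then N - 2 else
  x - 8 + ((if y ≤ 1 then 0 else if y ≤ 4 then y - 1 else 4) - (x - 8)) % 5

def home (N v : ℤ) : ℤ :=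
  if v = 1 then 1 else if v = N - 2 then 5 else if v % 5 = 0 then 0 else
  if v % 5 = 4 then 6 else v % 5 + 1

def base (N v : ℤ) : ℤ := if v = 0 then 7 else if v = N - 2 then N - 2 else max 8 (v + 4)

def cell (N v : ℤ) : Set Z2 := {p | 7 ≤ rad p ∧ rad p ≤ N + 4 ∧ ow N (rad p) (col p) = v}

lemma mem_cell {N v x y : ℤ} (h1 : 7 ≤ x) (h2 : x ≤ N + 4) (h3 : 0 ≤ y) (h4 : y ≤ 6)
    (h : ow N x y = v) : (x, y) ∈ cell N v := by
  have a : rad (x, y) = x := by unfold rad; dsimp only; omega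
  have b : col (x, y) = y := by unfold col; rw [a]; dsimp only; omega
  exact ⟨by omega, by omega, by rw [a, b, h]⟩

lemma mem_cell' {N v x : ℤ} (h1 : 7 ≤ x) (h2 : x ≤ N + 4) (h : ow N x 6 = v) :
    (x, -1) ∈ cell N v := by
  have a : rad (x, -1) = x := by unfold rad; dsimp only; omega
  have b : col (x, -1) = 6 := by unfold col; rw [a]; dsimp only; omega
  exact ⟨by omega, by omega, by rw [a, b, h]⟩

lemma cell_finite (N v : ℤ) : (cell N v).Finite := by
  refine ((Set.finite_Icc (-(N + 4)) (N + 4)).prod (Set.finite_Icc (-(N + 4)) (N + 4))).subset ?_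
  rintro p ⟨-, h, -⟩
  unfold rad at h
  simp only [Set.mem_prod, Set.mem_Icc]
  omega

section
variable {N : ℤ} (h5 : N % 5 = 0) (hN : 40 ≤ N)
include h5 hN

lemma ow_step {x y : ℤ} (h1 : 7 ≤ x) (h2 : x ≤ N + 4) (h3 : 0 ≤ y) (h4 : y ≤ 6) :
    (y < home N (ow N x y) → ow N x (y + 1) = ow N x y) ∧
    (home N (ow N x y) < y → ow N x (y - 1) = ow N x y) ∧
    (y = home N (ow N x y) → x ≠ base N (ow N x y) → 8 ≤ x ∧ ow N (x - 1) y = ow N x y) := by
  generalize hv : ow N x y = v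
  unfold ow at hv
  unfold ow home base
  interval_cases y <;> simp only [Int.reduceAdd, Int.reduceSub, Int.reduceEq, Int.reduceLE,
    false_and, true_and, if_true, if_false, le_refl] at hv ⊢ <;> omega

lemma cell_conn {v : ℤ} (h0 : 0 ≤ v) (hv : v < N) : (grid.induce (cell N v)).Connected := by
  have hh : 0 ≤ home N v ∧ home N v ≤ 6 := by unfold home; omega
  have k := descend (S := cell N v) (r := (base N v, home N v))
    (P := fun p => 7 ≤ p.1 ∧ p.1 ≤ N + 4 ∧ 0 ≤ p.2 ∧ p.2 ≤ 6 ∧ ow N p.1 p.2 = v)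
    (fun p => 8 * p.1 + max (p.2 - home N v) (home N v - p.2))
    (fun p h => mem_cell h.1 h.2.1 h.2.2.1 h.2.2.2.1 h.2.2.2.2) (by
      rintro ⟨x, y⟩ ⟨h1, h2, h3, h4, h⟩ hne
      simp only [grid_adj, ne_eq, Prod.mk.injEq] at h1 h2 h3 h4 h hne ⊢
      have k := ow_step h5 hN h1 h2 h3 h4
      rw [h] at k
      rcases lt_trichotomy y (home N v) with c | c | c
      · exact ⟨(x, y + 1), by dsimp only; omega⟩
      · exact ⟨(x - 1, y), by dsimp only; omega⟩
      · exact ⟨(x, y - 1), by dsimp only; omega⟩)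
  refine conn_of (r := (base N v, home N v)) (mem_cell (by unfold base; omega)
    (by unfold base; omega) hh.1 hh.2 ?_) ?_
  · unfold base home ow; omega
  · rintro p ⟨h1, h2, h3⟩
    by_cases c : col p = 6
    · refine (ring_path h1 (fun q hq => ?_) p ⟨rfl, c⟩).trans
        (k _ ⟨h1, h2, by norm_num, le_rfl, c ▸ h3⟩)
      exact ⟨by omega, by omega, by rw [hq.1, hq.2, ← c, h3]⟩
    · have : p.1 = rad p ∧ 0 ≤ p.2 ∧ p.2 ≤ 6 ∧ col p = p.2 := by unfold col at c ⊢; omega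
      exact k p ⟨by omega, by omega, this.2.1, this.2.2.1, by rw [this.1, ← this.2.2.2, h3]⟩

end

lemma cell_arc {N u w : ℕ} (h20 : N % 20 = 0) (hN : 40 ≤ N) (h : arc N u w) :
    ∃ p ∈ cell N u, ∃ q ∈ cell N w, grid.Adj p q := by
  have k : ∀ x y x' y' : ℤ, 7 ≤ x ∧ x ≤ N + 4 ∧ 0 ≤ y ∧ y ≤ 6 ∧ 7 ≤ x' ∧ x' ≤ N + 4 ∧ 0 ≤ y' ∧
      y' ≤ 6 ∧ ((x = x' ∧ (y' = y + 1 ∨ y = y' + 1)) ∨ (y = y' ∧ x' = x + 1)) →
      ow N x y = u → ow N x' y' = w → ∃ p ∈ cell N u, ∃ q ∈ cell N w, grid.Adj p q :=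
    fun x y x' y' ⟨a, b, c, d, a', b', c', d', e⟩ f g => ⟨_, mem_cell a b c d f, _,
      mem_cell a' b' c' d' g, by rw [grid_adj]; dsimp only; omega⟩
  obtain ⟨hw, h⟩ := h
  have h5 : u % 5 = 0 ∨ u % 5 = 1 ∨ u % 5 = 2 ∨ u % 5 = 3 ∨ u % 5 = 4 := by omega
  rcases h with h | h | ⟨h, h'⟩ | ⟨h, h' | h'⟩ | h | ⟨h, h' | h'⟩ | h
  · rcases h5 with c | c | c | c | c
    · exact ⟨(u + 8, 0), mem_cell (by omega) (by omega) le_rfl (by omega) (by unfold ow; omega),
        _, mem_cell' (x := u + 8) (by omega) (by omega) (by unfold ow; omega), by simp [grid_adj]⟩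
    · by_cases e : u = 1
      · exact k 9 1 9 0 (by omega) (by unfold ow; omega) (by unfold ow; omega)
      · exact k (u + 8) 2 (u + 8) 1 (by omega) (by unfold ow; omega) (by unfold ow; omega)
    · exact k (u + 8) 3 (u + 8) 2 (by omega) (by unfold ow; omega) (by unfold ow; omega)
    · exact k (u + 8) 4 (u + 8) 3 (by omega) (by unfold ow; omega) (by unfold ow; omega)
    · by_cases e : u + 6 = N
      · exact k (u + 8) 6 (u + 8) 5 (by omega) (by unfold ow; omega) (by unfold ow; omega)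
      · exact k (u + 8) 5 (u + 8) 4 (by omega) (by unfold ow; omega) (by unfold ow; omega)
  · rcases h5 with c | c | c | c | c
    · exact k (u + 8) 0 (u + 9) 0 (by omega) (by unfold ow; omega) (by unfold ow; omega)
    · exact k (u + 8) 2 (u + 9) 2 (by omega) (by unfold ow; omega) (by unfold ow; omega)
    · exact k (u + 8) 3 (u + 9) 3 (by omega) (by unfold ow; omega) (by unfold ow; omega)
    · exact k (u + 8) 4 (u + 9) 4 (by omega) (by unfold ow; omega) (by unfold ow; omega)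
    · exact k (u + 8) 6 (u + 9) 6 (by omega) (by unfold ow; omega) (by unfold ow; omega)
  · obtain ⟨x, hx⟩ : ∃ x : ℤ, x = max 8 (u + 5) := ⟨_, rfl⟩
    rcases h5 with c | c | c | c | c
    · by_cases e : u = 0
      · exact k 8 0 8 1 (by omega) (by unfold ow; omega) (by unfold ow; omega)
      · exact k x 1 x 2 (by omega) (by unfold ow; omega) (by unfold ow; omega)
    · exact k x 2 x 3 (by omega) (by unfold ow; omega) (by unfold ow; omega)
    · exact k x 3 x 4 (by omega) (by unfold ow; omega) (by unfold ow; omega)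
    · by_cases e : u + 2 = N
      · exact k x 5 x 6 (by omega) (by unfold ow; omega) (by unfold ow; omega)
      · exact k x 4 x 5 (by omega) (by unfold ow; omega) (by unfold ow; omega)
    · exact ⟨_, mem_cell' (x := x) (by omega) (by omega) (by unfold ow; omega), (x, 0),
        mem_cell (by omega) (by omega) le_rfl (by omega) (by unfold ow; omega), by simp [grid_adj]⟩
  · exact k 7 3 8 3 (by omega) (by unfold ow; omega) (by unfold ow; omega)
  · exact k 7 4 8 4 (by omega) (by unfold ow; omega) (by unfold ow; omega)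
  · exact k 13 1 14 1 (by omega) (by unfold ow; omega) (by unfold ow; omega)
  · exact k (N + 3) 3 (N + 4) 3 (by omega) (by unfold ow; omega) (by unfold ow; omega)
  · exact k (N + 3) 2 (N + 4) 2 (by omega) (by unfold ow; omega) (by unfold ow; omega)
  · exact k (N - 3) 5 (N - 2) 5 (by omega) (by unfold ow; omega) (by unfold ow; omega)

theorem tube_minor {N : ℕ} (h20 : N % 20 = 0) (hN : 40 ≤ N) : Minor (tube N) grid := by
  refine ⟨fun v => cell N v, fun v => ⟨cell_finite _ _,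
    cell_conn (by omega) (by omega) (by omega) (by omega)⟩, fun i j hij => ?_, fun i j h => ?_⟩
  · refine Set.disjoint_left.2 fun p h1 h2 => hij (Fin.ext ?_)
    have := h1.2.2.symm.trans h2.2.2
    omega
  · rcases h with h | h
    · exact cell_arc h20 hN h
    · obtain ⟨p, hp, q, hq, h⟩ := cell_arc h20 hN h
      exact ⟨q, hq, p, hp, h.symm⟩

theorem planar_of_model {N : ℕ} (h20 : N % 20 = 0) (hN : 40 ≤ N) {H : FinGraph}
    (h : Model H ⟨N, tube N⟩) : Planar H :=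
  ((Minor.of_model h).trans (tube_minor h20 hN)).planar

end Pool.Agent.Lib.T5
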