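import Pool.Agent.Lib.MP_4bab84_h56.Wheel

/-! An antichain of five-connected tubes. -/

set_option autoImplicit false

namespace Pool.Agent.Lib.T5

open Pool.Agent.Lib.MP_4bab84_co

/-- At least six vertices, and deleting at most four vertices leaves a connected graph. -/
def FiveConnected (G : FinGraph) : Prop :=
  6 ≤ G.1 ∧ ∀ X : Finset (Fin G.1), X.card ≤ 4 → (G.2.induce (X : Set (Fin G.1))ᶜ).Connected

lemma nbs_le : ∀ v < 44, (nbs v).length ≤ 6 := by decide +kernel

lemma tube_deg {N : ℕ} (h4 : N % 4 = 0) (hN : 44 ≤ N) (u : Fin N) :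
    ((tube N).neighborSet u).ncard ≤ 6 := by
  obtain ⟨o, v, e, ho, hoN, hv, -, hs⟩ := window h4 hN u.2
  refine le_trans ?_ ((List.toFinset_card_le _).trans (nbs_le v hv))
  rw [← Set.ncard_coe_finset]
  have key : ∀ z ∈ (tube N).neighborSet u, ∃ y, z.1 = y + o ∧ adj 44 v y := fun z hz =>
    adj_full h4 ho hoN (hs v (top_of hv).2.2.2.1) (e ▸ hz)
  refine Set.ncard_le_ncard_of_injOn (fun z => z.1 - o) (fun z hz => ?_) fun z hz z' hz' e => ?_
  · obtain ⟨y, e, hy⟩ := key z hz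
    simpa [e, mem_nbs] using hy
  · obtain ⟨y, e1, -⟩ := key z hz
    obtain ⟨y', e2, -⟩ := key z' hz'
    exact Fin.ext (by dsimp only at e; omega)

theorem five_main : ∃ F : Set FinGraph, (∀ G ∈ F, Planar G) ∧ (∀ G ∈ F, ∀ H, Model H G → H ∈ F) ∧
    (∀ k, 13 ≤ k → (⟨2 * k + 2, wheel k⟩ : FinGraph) ∉ F) ∧
    ∃ g : ℕ → FinGraph, (∀ i, g i ∈ F ∧ FiveConnected (g i) ∧
      ∀ v, ((g i).2.neighborSet v).ncard ≤ 6) ∧ ∀ i j, i ≠ j → ¬ Model (g i) (g j) := by
  have p : ∀ i, 60 ≤ 60 * 5 ^ i := fun i => Nat.le_mul_of_pos_right _ (by positivity)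
  have q : ∀ i j, i < j → 5 * (60 * 5 ^ i) ≤ 60 * 5 ^ j := fun i j h => by
    have : 5 ^ (i + 1) ≤ 5 ^ j := Nat.pow_le_pow_right (by norm_num) h
    rw [pow_succ] at this
    omega
  refine ⟨{H | ∃ i, Model H ⟨60 * 5 ^ i, tube _⟩}, ?_, ?_, ?_,
    fun i => ⟨60 * 5 ^ i, tube _⟩, fun i => ⟨⟨i, ?_⟩, ⟨?_, ?_⟩, ?_⟩, fun i j hij h => ?_⟩
  · rintro G ⟨i, h⟩
    exact planar_of_model (by omega) (by have := p i; omega) h
  · rintro G ⟨i, h⟩ H h'
    exact ⟨i, h'.trans h⟩
  · rintro k hk ⟨i, h⟩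
    obtain ⟨σ⟩ := sys_of_model h
    exact σ.not_wheel hk (by have := p i; omega)
  · exact model_of_inj id Function.injective_id fun _ _ => Iff.rfl
  · have := p i; dsimp only; omega
  · have := p i
    exact (tube_rigid (N := 60 * 5 ^ i) (by omega) (by omega)).conn
      (by rw [Fintype.card_fin]; omega)
  · exact tube_deg (N := 60 * 5 ^ i) (by omega) (by have := p i; omega)
  · have := p i
    have := p j
    rcases lt_or_gt_of_ne hij with c | c
    · obtain ⟨σ⟩ := sys_of_model h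
      have := q i j c
      exact σ.not_rigid (tube_rigid (N := 60 * 5 ^ i) (by omega) (by omega))
        (by rw [Fintype.card_fin]; dsimp only; omega) (by rw [Fintype.card_fin]; dsimp only; omega)
    · have := q j i c
      have := h.card_le
      dsimp only at this
      omega

end Pool.Agent.Lib.T5
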