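import Pool.Agent.Lib.MP_4bab84_co.Ops

/-! Every finite minor of the square grid can be drawn in the plane. -/

set_option autoImplicit false

namespace Pool.Agent.Lib.T5

open Pool.Agent.Lib.MP_4bab84_co

abbrev Z2 : Type := ℤ × ℤ

/-- The square grid. -/
def grid : SimpleGraph Z2 where
  Adj p q := (p.1 = q.1 ∧ (q.2 = p.2 + 1 ∨ p.2 = q.2 + 1)) ∨
    (p.2 = q.2 ∧ (q.1 = p.1 + 1 ∨ p.1 = q.1 + 1))
  symm := ⟨fun p q h => by omega⟩
  loopless := ⟨fun p h => by omega⟩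

lemma grid_adj {p q : Z2} : grid.Adj p q ↔ (p.1 = q.1 ∧ (q.2 = p.2 + 1 ∨ p.2 = q.2 + 1)) ∨
    (p.2 = q.2 ∧ (q.1 = p.1 + 1 ∨ p.1 = q.1 + 1)) := Iff.rfl

def cb (s : ℝ) (a b : ℤ) : ℝ := (1 - s) * a + s * b
def lin (p q : Z2) (s : ℝ) : ℝ × ℝ := (cb s p.1 q.1, cb s p.2 q.2)
def pt (p : Z2) : ℝ × ℝ := (p.1, p.2)
def seg (p q : Z2) : Set (ℝ × ℝ) := {x | ∃ s, 0 ≤ s ∧ s ≤ 1 ∧ x = lin p q s}

lemma lin_zero (p q : Z2) : lin p q 0 = pt p := by simp [lin, cb, pt]
lemma lin_one (p q : Z2) : lin p q 1 = pt q := by simp [lin, cb, pt]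
lemma cb_self (s : ℝ) (a : ℤ) : cb s a a = a := by unfold cb; ring
lemma lin_self (p : Z2) (s : ℝ) : lin p p s = pt p := by simp [lin, cb_self, pt]
lemma right_mem (p q : Z2) : pt q ∈ seg p q := ⟨1, zero_le_one, le_rfl, (lin_one p q).symm⟩

section comb
variable {s : ℝ} {a b m : ℤ}

lemma cb_ge (h0 : 0 ≤ s) (h1 : s ≤ 1) (ha : m ≤ a) (hb : m ≤ b) : (m : ℝ) ≤ cb s a b := by
  have : (m : ℝ) ≤ a := by exact_mod_cast ha
  have : (m : ℝ) ≤ b := by exact_mod_cast hb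
  unfold cb; nlinarith
lemma cb_le (h0 : 0 ≤ s) (h1 : s ≤ 1) (ha : a ≤ m) (hb : b ≤ m) : cb s a b ≤ m := by
  have : (a : ℝ) ≤ m := by exact_mod_cast ha
  have : (b : ℝ) ≤ m := by exact_mod_cast hb
  unfold cb; nlinarith
lemma lt_cb (h0 : 0 ≤ s) (h1 : s ≤ 1) (h : (m : ℝ) < cb s a b) : m < a ∨ m < b := by
  by_contra hc
  exact absurd (cb_le h0 h1 (m := m) (by omega) (by omega)) (not_le.2 h)
lemma cb_lt (h0 : 0 ≤ s) (h1 : s ≤ 1) (h : cb s a b < (m : ℝ)) : a < m ∨ b < m := by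
  by_contra hc
  exact absurd (cb_ge h0 h1 (m := m) (by omega) (by omega)) (not_le.2 h)
lemma cb_eq (h0 : 0 ≤ s) (h1 : s ≤ 1) (h : cb s a b = (m : ℝ)) :
    (m ≤ a ∨ m ≤ b) ∧ (a ≤ m ∨ b ≤ m) := by
  have := lt_cb h0 h1 (m := m - 1) (a := a) (b := b) (by rw [h]; push_cast; linarith)
  have := cb_lt h0 h1 (m := m + 1) (a := a) (b := b) (by rw [h]; push_cast; linarith)
  omega
lemma cb_in (h0 : 0 < s) (h1 : s < 1) (h : b = a + 1 ∨ a = b + 1) :
    ((min a b : ℤ) : ℝ) < cb s a b ∧ cb s a b < (max a b : ℤ) := by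
  rcases h with rfl | rfl
  · rw [min_eq_left (by omega), max_eq_right (by omega)]
    unfold cb; push_cast; constructor <;> linarith
  · rw [min_eq_right (by omega), max_eq_left (by omega)]
    unfold cb; push_cast; constructor <;> linarith
end comb

lemma pt_mem {a p q : Z2} (hpq : p = q ∨ grid.Adj p q) (h : pt a ∈ seg p q) : a = p ∨ a = q := by
  obtain ⟨s, h0, h1, h⟩ := h
  have e1 := cb_eq h0 h1 (congrArg Prod.fst h).symm
  have e2 := cb_eq h0 h1 (congrArg Prod.snd h).symm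
  simp only [grid_adj, Prod.ext_iff] at hpq ⊢
  omega

lemma in_mem {u v p q : Z2} {s : ℝ} (huv : grid.Adj u v) (h0 : 0 < s) (h1 : s < 1)
    (hpq : p = q ∨ grid.Adj p q) (h : lin u v s ∈ seg p q) :
    (p = u ∧ q = v) ∨ (p = v ∧ q = u) := by
  obtain ⟨t, t0, t1, h⟩ := h
  have e1 : cb s u.1 v.1 = cb t p.1 q.1 := congrArg Prod.fst h
  have e2 : cb s u.2 v.2 = cb t p.2 q.2 := congrArg Prod.snd h
  simp only [grid_adj, Prod.ext_iff] at hpq ⊢
  rcases huv with ⟨a, b⟩ | ⟨a, b⟩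
  · rw [← a, cb_self] at e1
    have := cb_eq t0 t1 e1.symm
    have := lt_cb t0 t1 (e2 ▸ (cb_in h0 h1 b).1)
    have := cb_lt t0 t1 (e2 ▸ (cb_in h0 h1 b).2)
    omega
  · rw [← a, cb_self] at e2
    have := cb_eq t0 t1 e2.symm
    have := lt_cb t0 t1 (e1 ▸ (cb_in h0 h1 b).1)
    have := cb_lt t0 t1 (e1 ▸ (cb_in h0 h1 b).2)
    omega

/-! ### Collapsing one edge -/

noncomputable def aa (y : ℝ) : ℝ := min 1 (2 * |y|)
noncomputable def ww (x y : ℝ) : ℝ := max 0 (min (x - aa y) ((1 - aa y) * (3 - 2 * x)))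
noncomputable def cc (x y : ℝ) : ℝ := (1 - aa y) * ww x y

lemma aa_le (y : ℝ) : aa y ≤ 1 := min_le_left _ _
lemma aa_nonneg (y : ℝ) : 0 ≤ aa y := le_min zero_le_one (by positivity)

lemma cc_zero {x y : ℝ} (h : x ≤ 0 ∨ 2 ≤ x ∨ 1 ≤ y ∨ y ≤ -1) : cc x y = 0 := by
  have h1 := aa_le y
  have h2 := aa_nonneg y
  unfold cc ww
  rcases h with h | h | h | h
  · rw [max_eq_left ((min_le_left _ _).trans (by linarith)), mul_zero]
  · rw [max_eq_left ((min_le_right _ _).trans (by nlinarith)), mul_zero]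
  · rw [show aa y = 1 from min_eq_left (by linarith [le_abs_self y])]; simp
  · rw [show aa y = 1 from min_eq_left (by linarith [neg_abs_le y])]; simp

lemma cc_seg {x : ℝ} (h0 : 0 ≤ x) (h1 : x ≤ 1) : cc x 0 = x := by
  have : aa 0 = 0 := by simp [aa]
  unfold cc ww
  rw [this, min_eq_left (by linarith), max_eq_right (by linarith)]; ring

lemma cc_inj {x x' y : ℝ} (hx : x < x') (h : x - cc x y = x' - cc x' y) :
    y = 0 ∧ 0 ≤ x ∧ x' ≤ 1 := by
  have h1 := aa_le y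
  have h2 := aa_nonneg y
  by_cases hy : y = 0
  · subst hy
    have : aa 0 = 0 := by simp [aa]
    unfold cc ww at h
    rw [this] at h
    simp only [max_def, min_def] at h
    refine ⟨rfl, ?_⟩
    split_ifs at h <;> constructor <;> linarith
  · exfalso
    have h3 : 0 < aa y := lt_min one_pos (by positivity)
    have h4 : ww x' y ≤ ww x y + (x' - x) := by
      unfold ww
      refine max_le (by linarith [le_max_left 0 (min (x - aa y) ((1 - aa y) * (3 - 2 * x)))]) ?_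
      refine le_trans ?_ (add_le_add_left (le_max_right _ _) _)
      rw [← sub_le_iff_le_add]
      refine le_min (by linarith [min_le_left (x' - aa y) ((1 - aa y) * (3 - 2 * x'))]) ?_
      nlinarith [min_le_right (x' - aa y) ((1 - aa y) * (3 - 2 * x'))]
    unfold cc at h
    nlinarith

lemma collapse {u v : Z2} (huv : grid.Adj u v) : ∃ φ : ℝ × ℝ → ℝ × ℝ, Continuous φ ∧
    (∀ x ∈ seg u v, φ x = pt u) ∧ (∀ x y, φ x = φ y → x = y ∨ (x ∈ seg u v ∧ y ∈ seg u v)) ∧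
    ∀ p q, (p = q ∨ grid.Adj p q) → p ≠ v → q ≠ v → ∀ x ∈ seg p q, φ x = x := by
  obtain ⟨e, f, hv1, hv2, hef⟩ : ∃ e f : ℤ, v.1 = u.1 + e ∧ v.2 = u.2 + f ∧
      ((e = 0 ∧ (f = 1 ∨ f = -1)) ∨ (f = 0 ∧ (e = 1 ∨ e = -1))) :=
    ⟨v.1 - u.1, v.2 - u.2, by ring, by ring, by rw [grid_adj] at huv; omega⟩
  have hn : (e : ℝ) ^ 2 + (f : ℝ) ^ 2 = 1 := by
    rcases hef with ⟨rfl, rfl | rfl⟩ | ⟨rfl, rfl | rfl⟩ <;> simp
  let X : ℝ × ℝ → ℝ := fun p => e * (p.1 - u.1) + f * (p.2 - u.2)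
  let Y : ℝ × ℝ → ℝ := fun p => e * (p.2 - u.2) - f * (p.1 - u.1)
  have r1 : ∀ p : ℝ × ℝ, p.1 = u.1 + e * X p - f * Y p := fun p => by
    simp only [X, Y]; linear_combination (u.1 - p.1) * hn
  have r2 : ∀ p : ℝ × ℝ, p.2 = u.2 + f * X p + e * Y p := fun p => by
    simp only [X, Y]; linear_combination (u.2 - p.2) * hn
  have ms : ∀ p, Y p = 0 → 0 ≤ X p → X p ≤ 1 → p ∈ seg u v := fun p a b c =>
    ⟨X p, b, c, Prod.ext (by rw [r1 p, a]; simp only [lin, cb, hv1]; push_cast; ring_nf)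
      (by rw [r2 p, a]; simp only [lin, cb, hv2]; push_cast; ring_nf)⟩
  refine ⟨fun p => (p.1 - cc (X p) (Y p) * e, p.2 - cc (X p) (Y p) * f), ?_, ?_, ?_, ?_⟩
  · simp only [X, Y]; unfold cc ww aa; fun_prop
  · rintro _ ⟨s, h0, h1, rfl⟩
    have a : X (lin u v s) = s := by
      simp only [X, lin, cb, hv1, hv2]; push_cast; linear_combination s * hn
    have b : Y (lin u v s) = 0 := by simp only [Y, lin, cb, hv1, hv2]; push_cast; ring
    simp only [a, b, cc_seg h0 h1]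
    simp only [lin, cb, hv1, hv2, pt]; push_cast; ring_nf
  · intro p q h
    have h1 : p.1 - cc (X p) (Y p) * e = q.1 - cc (X q) (Y q) * e := congrArg Prod.fst h
    have h2 : p.2 - cc (X p) (Y p) * f = q.2 - cc (X q) (Y q) * f := congrArg Prod.snd h
    have a : Y p = Y q := by
      have : Y p - Y q = e * (p.2 - q.2) - f * (p.1 - q.1) := by simp only [Y]; ring
      linear_combination this + e * h2 - f * h1
    have b : X p - cc (X p) (Y p) = X q - cc (X q) (Y q) := by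
      have : X p - X q = e * (p.1 - q.1) + f * (p.2 - q.2) := by simp only [X]; ring
      linear_combination this + e * h1 + f * h2 + (cc (X p) (Y p) - cc (X q) (Y q)) * hn
    rw [← a] at b
    rcases lt_trichotomy (X p) (X q) with c | c | c
    · obtain ⟨d1, d2, d3⟩ := cc_inj c b
      exact Or.inr ⟨ms p d1 d2 (by linarith), ms q (a ▸ d1) (by linarith) d3⟩
    · exact Or.inl (Prod.ext (by rw [r1 p, r1 q, a, c]) (by rw [r2 p, r2 q, a, c]))
    · obtain ⟨d1, d2, d3⟩ := cc_inj c b.symm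
      exact Or.inr ⟨ms p d1 (by linarith) d3, ms q (a ▸ d1) d2 (by linarith)⟩
  · rintro p q hpq hp hq _ ⟨s, h0, h1, rfl⟩
    have a : X (lin p q s) = cb s (e * (p.1 - u.1) + f * (p.2 - u.2))
        (e * (q.1 - u.1) + f * (q.2 - u.2)) := by simp only [X, lin, cb]; push_cast; ring
    have b : Y (lin p q s) = cb s (e * (p.2 - u.2) - f * (p.1 - u.1))
        (e * (q.2 - u.2) - f * (q.1 - u.1)) := by simp only [Y, lin, cb]; push_cast; ring
    have c : cc (X (lin p q s)) (Y (lin p q s)) = 0 := by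
      rw [a, b]
      by_contra hc
      have k := fun h => hc (cc_zero h)
      have k1 := lt_cb h0 h1 (m := 0) (by simpa using not_le.1 fun h => k (Or.inl h))
      have k2 := cb_lt h0 h1 (m := 2) (by simpa using not_le.1 fun h => k (Or.inr (Or.inl h)))
      have k3 := cb_lt h0 h1 (m := 1)
        (by simpa using not_le.1 fun h => k (Or.inr (Or.inr (Or.inl h))))
      have k4 := lt_cb h0 h1 (m := -1)
        (by simpa using not_le.1 fun h => k (Or.inr (Or.inr (Or.inr h))))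
      simp only [grid_adj, Prod.ext_iff, ne_eq] at hpq hp hq
      rcases hef with ⟨rfl, rfl | rfl⟩ | ⟨rfl, rfl | rfl⟩ <;> omega
    simp only [c, zero_mul, sub_zero]

/-! ### Collapsing a forest -/

lemma forest {ι : Type} (own : Z2 → ι) (par : Z2 → Z2) (dep : Z2 → ℕ) (T : Finset Z2) :
    (∀ v ∈ T, par v ∈ T ∧ own (par v) = own v ∧
      (par v = v ∨ (grid.Adj (par v) v ∧ dep (par v) < dep v))) →
    (∀ v ∈ T, ∀ w ∈ T, par v = v → par w = w → own v = own w → v = w) →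
    ∃ Φ : ℝ × ℝ → ℝ × ℝ, Continuous Φ ∧
      (∀ v ∈ T, ∀ w ∈ T, own v = own w → ∀ x ∈ seg (par v) v, ∀ y ∈ seg (par w) w, Φ x = Φ y) ∧
      ∀ x y, Φ x = Φ y → x = y ∨
        ∃ v ∈ T, ∃ w ∈ T, own v = own w ∧ x ∈ seg (par v) v ∧ y ∈ seg (par w) w := by
  classical
  induction T using Finset.strongInduction with
  | H T ih =>
    intro h1 h2
    rcases (T.filter fun v => par v ≠ v).eq_empty_or_nonempty with h0 | h0
    · have hr : ∀ v ∈ T, par v = v := fun v hv => by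
        by_contra hc
        exact Finset.notMem_empty v (h0 ▸ Finset.mem_filter.2 ⟨hv, hc⟩)
      refine ⟨id, continuous_id, ?_, fun x y h => Or.inl h⟩
      rintro v hv w hw h _ ⟨s, -, -, rfl⟩ _ ⟨t, -, -, rfl⟩
      rw [hr v hv, hr w hw, lin_self, lin_self, h2 v hv w hw (hr v hv) (hr w hw) h]
    obtain ⟨v, hv, hm⟩ := Finset.exists_max_image _ dep h0
    obtain ⟨hv, hn⟩ := Finset.mem_filter.1 hv
    obtain ⟨φ, c0, c1, c2, c3⟩ := collapse ((h1 v hv).2.2.resolve_left hn).1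
    have hp : ∀ w ∈ T.erase v, par w ≠ v := fun w hw e => by
      obtain ⟨a, b⟩ := Finset.mem_erase.1 hw
      have a' : par w ≠ w := fun e' => a (e'.symm.trans e)
      have := hm w (Finset.mem_filter.2 ⟨b, a'⟩)
      have := ((h1 w b).2.2.resolve_left a').2
      rw [e] at this
      omega
    have sub := Finset.erase_subset v T
    have ad : ∀ w ∈ T, par w = w ∨ grid.Adj (par w) w := fun w hw => (h1 w hw).2.2.imp id And.left
    have fx : ∀ w ∈ T.erase v, ∀ x ∈ seg (par w) w, φ x = x := fun w hw =>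
      c3 _ _ (ad w (sub hw)) (hp w hw) (Finset.mem_erase.1 hw).1
    obtain ⟨Φ, d0, d1, d2⟩ := ih (T.erase v) (Finset.erase_ssubset hv)
      (fun w hw => ⟨Finset.mem_erase.2 ⟨hp w hw, (h1 w (sub hw)).1⟩, (h1 w (sub hw)).2⟩)
      fun a ha b hb => h2 a (sub ha) b (sub hb)
    have fw : ∀ w ∈ T, ∀ x ∈ seg (par w) w,
        ∃ w' ∈ T.erase v, own w' = own w ∧ φ x ∈ seg (par w') w' := fun w hw x hx => by
      by_cases e : w = v
      · subst e
        exact ⟨par w, Finset.mem_erase.2 ⟨hn, (h1 w hw).1⟩, (h1 w hw).2.1,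
          c1 x hx ▸ right_mem _ _⟩
      · have hw' := Finset.mem_erase.2 ⟨e, hw⟩
        exact ⟨w, hw', rfl, (fx w hw' x hx).symm ▸ hx⟩
    have bw : ∀ w ∈ T.erase v, ∀ x, φ x ∈ seg (par w) w →
        ∃ w' ∈ T, own w' = own w ∧ x ∈ seg (par w') w' := fun w hw x hx => by
      rcases c2 _ _ (fx w hw _ hx) with e | ⟨-, e⟩
      · exact ⟨w, sub hw, rfl, e ▸ hx⟩
      · refine ⟨v, hv, ?_, e⟩
        rw [c1 x e] at hx
        rw [← (h1 v hv).2.1]
        rcases pt_mem (ad w (sub hw)) hx with e | e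
        · rw [e, (h1 w (sub hw)).2.1]
        · rw [e]
    refine ⟨Φ ∘ φ, d0.comp c0, fun a ha b hb e x hx y hy => ?_, fun x y h => ?_⟩
    · obtain ⟨a', a1, a2, a3⟩ := fw a ha x hx
      obtain ⟨b', b1, b2, b3⟩ := fw b hb y hy
      exact d1 a' a1 b' b1 (a2.trans (e.trans b2.symm)) _ a3 _ b3
    · rcases d2 _ _ h with e | ⟨a, ha, b, hb, e, hx, hy⟩
      · exact (c2 x y e).imp id fun h => ⟨v, hv, v, hv, rfl, h⟩
      · obtain ⟨a', a1, a2, a3⟩ := bw a ha x hx
        obtain ⟨b', b1, b2, b3⟩ := bw b hb y hy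
        exact Or.inr ⟨a', a1, b', b1, a2.trans (e.trans b2.symm), a3, b3⟩

/-! ### Minors -/

/-- `H` is a minor of `G`, with finite branch sets. -/
def Minor {V W : Type} (H : SimpleGraph V) (G : SimpleGraph W) : Prop :=
  ∃ B : V → Set W, (∀ i, (B i).Finite ∧ (G.induce (B i)).Connected) ∧
    (∀ i j, i ≠ j → Disjoint (B i) (B j)) ∧ ∀ i j, H.Adj i j → ∃ u ∈ B i, ∃ v ∈ B j, G.Adj u v

lemma Minor.of_model {H G : FinGraph} (h : Model H G) : Minor H.2 G.2 := by
  obtain ⟨B, h1, h2, h3⟩ := h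
  exact ⟨B, fun i => ⟨Set.toFinite _, h1 i⟩, h2, fun i j h => (h3 i j h.ne).1 h⟩

lemma Minor.trans {U V W : Type} {K : SimpleGraph U} {H : SimpleGraph V} {G : SimpleGraph W}
    (h1 : Minor K H) (h2 : Minor H G) : Minor K G := by
  obtain ⟨B, hc, hd, ha⟩ := h1
  obtain ⟨C, kc, kd, ka⟩ := h2
  refine ⟨fun i => ⋃ a ∈ B i, C a, fun i => ⟨(hc i).1.biUnion fun a _ => (kc a).1, ?_⟩,
    fun i j hij => ?_, fun i j hij => ?_⟩
  · have sub : ∀ a : B i, C a.1 ⊆ ⋃ a ∈ B i, C a := fun a =>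
      Set.subset_biUnion_of_mem (u := C) a.2
    have key : ∀ a b : B i, Relation.ReflTransGen (H.induce (B i)).Adj a b →
        ∀ (x : C a.1) (y : C b.1), (G.induce (⋃ a ∈ B i, C a)).Reachable
          ⟨x.1, sub a x.2⟩ ⟨y.1, sub b y.2⟩ := by
      intro a b hab
      induction hab with
      | refl => exact fun x y => reach_mono _ (sub a) x y ((kc a.1).2.preconnected x y)
      | @tail c d _ hcd ih =>
        intro x y
        have hadj : H.Adj c.1 d.1 := by simpa using hcd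
        obtain ⟨u, hu, v, hv, huv⟩ := ka _ _ hadj
        refine (ih x ⟨u, hu⟩).trans (SimpleGraph.Reachable.trans ?_
          (reach_mono _ (sub d) ⟨v, hv⟩ y ((kc d.1).2.preconnected _ _)))
        exact SimpleGraph.Adj.reachable (by simpa using huv)
    obtain ⟨a⟩ := (hc i).2.nonempty
    obtain ⟨x⟩ := (kc a.1).2.nonempty
    have : Nonempty (⋃ a ∈ B i, C a : Set _) := ⟨⟨x.1, sub a x.2⟩⟩
    refine ⟨fun p q => ?_⟩
    obtain ⟨a, ha', hp⟩ := Set.mem_iUnion₂.1 p.2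
    obtain ⟨b, hb', hq⟩ := Set.mem_iUnion₂.1 q.2
    exact key ⟨a, ha'⟩ ⟨b, hb'⟩ ((SimpleGraph.reachable_iff_reflTransGen _ _).1
      ((hc i).2.preconnected _ _)) ⟨p.1, hp⟩ ⟨q.1, hq⟩
  · refine Set.disjoint_left.2 fun x h1 h2 => ?_
    obtain ⟨a, ha', hp⟩ := Set.mem_iUnion₂.1 h1
    obtain ⟨b, hb', hq⟩ := Set.mem_iUnion₂.1 h2
    have hab : a ≠ b := fun h => Set.disjoint_left.1 (hd i j hij) ha' (h ▸ hb')
    exact Set.disjoint_left.1 (kd a b hab) hp hq
  · obtain ⟨a, ha', b, hb', hab⟩ := ha i j hij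
    obtain ⟨u, hu, v, hv, huv⟩ := ka _ _ hab
    exact ⟨u, Set.mem_iUnion₂.2 ⟨a, ha', hu⟩, v, Set.mem_iUnion₂.2 ⟨b, hb', hv⟩, huv⟩

lemma rooted {W : Type} {G : SimpleGraph W} {S : Set W} (h : (G.induce S).Connected) :
    ∃ r ∈ S, ∃ d : W → ℕ, ∀ x ∈ S, x ≠ r → ∃ y ∈ S, G.Adj y x ∧ d y < d x := by
  classical
  obtain ⟨r⟩ := h.nonempty
  refine ⟨r, r.2, fun x => if hx : x ∈ S then (G.induce S).dist ⟨x, hx⟩ r else 0,
    fun x hx hr => ?_⟩
  obtain ⟨p, hp⟩ := h.exists_walk_length_eq_dist ⟨x, hx⟩ r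
  cases p with
  | nil => exact absurd rfl hr
  | @cons _ y _ a p =>
    refine ⟨y, y.2, SimpleGraph.Adj.symm (by simpa using a), ?_⟩
    have := SimpleGraph.dist_le p
    simp only [hx, y.2, dite_true, ← hp, SimpleGraph.Walk.length_cons]
    exact Nat.lt_succ_of_le this

lemma conn_of {W : Type} {G : SimpleGraph W} {S : Set W} {r : W} (hr : r ∈ S)
    (h : ∀ x ∈ S, Relation.ReflTransGen (fun p q => G.Adj p q ∧ p ∈ S) x r) :
    (G.induce S).Connected := by
  have key : ∀ x, Relation.ReflTransGen (fun p q => G.Adj p q ∧ p ∈ S) x r → ∀ hx : x ∈ S,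
      (G.induce S).Reachable ⟨x, hx⟩ ⟨r, hr⟩ := by
    intro x hx
    induction hx using Relation.ReflTransGen.head_induction_on with
    | refl => exact fun _ => SimpleGraph.Reachable.refl _
    | @head a c hac hc ih =>
      intro ha
      have hcS : c ∈ S := by
        rcases hc.cases_head with rfl | ⟨_, h, -⟩
        exacts [hr, h.2]
      exact (SimpleGraph.Adj.reachable (by simpa using hac.1)).trans (ih hcS)
  have : Nonempty S := ⟨⟨r, hr⟩⟩
  exact ⟨fun a b => (key a (h a a.2) a.2).trans (key b (h b b.2) b.2).symm⟩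

lemma lin_inj {u v : Z2} (h : grid.Adj u v) {s t : ℝ} (e : lin u v s = lin u v t) : s = t := by
  have e1 : cb s u.1 v.1 = cb t u.1 v.1 := congrArg Prod.fst e
  have e2 : cb s u.2 v.2 = cb t u.2 v.2 := congrArg Prod.snd e
  unfold cb at e1 e2
  rcases h with ⟨-, h | h⟩ | ⟨-, h | h⟩
  · rw [h] at e2; push_cast at e2; linarith
  · rw [h] at e2; push_cast at e2; linarith
  · rw [h] at e1; push_cast at e1; linarith
  · rw [h] at e1; push_cast at e1; linarith

theorem Minor.planar {H : FinGraph} (h : Minor H.2 grid) : Planar H := by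
  classical
  rcases isEmpty_or_nonempty (Fin H.1) with h0 | h0
  · exact ⟨isEmptyElim, fun a => isEmptyElim a, fun i => isEmptyElim i, fun i => isEmptyElim i,
      fun i => isEmptyElim i, fun i => isEmptyElim i⟩
  obtain ⟨B, hc, hd, ha⟩ := h
  choose r hr d hrd using fun i => rooted (hc i).2
  have : ∀ p : Z2, ∃ i, ∀ j, p ∈ B j → i = j := fun p => by
    by_cases h : ∃ i, p ∈ B i
    · obtain ⟨i, hi⟩ := h
      exact ⟨i, fun j hj => by_contra fun e => Set.disjoint_left.1 (hd i j e) hi hj⟩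
    · exact ⟨h0.some, fun j hj => absurd ⟨j, hj⟩ h⟩
  choose own ho using this
  have : ∀ p : Z2, ∃ y, ∀ i, p ∈ B i → y ∈ B i ∧
      ((y = p ∧ p = r i) ∨ (grid.Adj y p ∧ d i y < d i p)) := fun p => by
    by_cases h : p ∈ B (own p) ∧ p ≠ r (own p)
    · obtain ⟨y, h1, h2⟩ := hrd _ p h.1 h.2
      exact ⟨y, fun i hi => ho p i hi ▸ ⟨h1, Or.inr h2⟩⟩
    · refine ⟨p, fun i hi => ⟨hi, Or.inl ⟨rfl, by_contra fun e => h ?_⟩⟩⟩
      rw [ho p i hi]; exact ⟨hi, e⟩
  choose par hp using this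
  have hT : (⋃ i, B i).Finite := Set.finite_iUnion fun i => (hc i).1
  have mT : ∀ p, p ∈ hT.toFinset ↔ ∃ i, p ∈ B i := fun p => by simp
  obtain ⟨Φ, c0, c1, c2⟩ := forest own par (fun p => d (own p) p) hT.toFinset
    (fun v hv => by
      obtain ⟨i, hi⟩ := (mT v).1 hv
      obtain ⟨h1, h2⟩ := hp v i hi
      refine ⟨(mT _).2 ⟨i, h1⟩, by rw [ho _ i h1, ho _ i hi], h2.imp And.left ?_⟩
      rw [ho _ i h1, ho _ i hi]; exact id)
    (fun v hv w hw e1 e2 e => by
      obtain ⟨i, hi⟩ := (mT v).1 hv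
      obtain ⟨j, hj⟩ := (mT w).1 hw
      rw [ho _ i hi, ho _ j hj] at e
      subst e
      exact ((hp v i hi).2.resolve_right fun h => h.1.ne e1).2.trans
        ((hp w i hj).2.resolve_right fun h => h.1.ne e2).2.symm)
  have ad : ∀ a ∈ hT.toFinset, (par a = a ∨ grid.Adj (par a) a) ∧ own (par a) = own a :=
    fun a h => by
      obtain ⟨i, hi⟩ := (mT a).1 h
      exact ⟨(hp a i hi).2.imp And.left And.left, by rw [ho _ i (hp a i hi).1, ho _ i hi]⟩
  have fv : ∀ i, ∀ u ∈ B i, Φ (pt u) = Φ (pt (r i)) := fun i u hu =>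
    c1 u ((mT u).2 ⟨i, hu⟩) _ ((mT _).2 ⟨i, hr i⟩) (by rw [ho _ i hu, ho _ i (hr i)]) _
      (right_mem _ _) _ (right_mem _ _)
  have po : ∀ a ∈ hT.toFinset, ∀ u, pt u ∈ seg (par a) a → own u = own a := fun a h u hu => by
    rcases pt_mem (ad a h).1 hu with e | e
    · rw [e, (ad a h).2]
    · rw [e]
  have inj : Function.Injective fun i => Φ (pt (r i)) := fun i j e => by
    refine (ho _ i (hr i)).symm.trans (Eq.trans ?_ (ho _ j (hr j)))
    rcases c2 _ _ e with e | ⟨a, h1, b, h2, e, h3, h4⟩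
    · have : pt (r i) ∈ seg (r j) (r j) := e ▸ right_mem _ _
      rw [(pt_mem (Or.inl rfl) this).elim id id]
    · rw [po a h1 _ h3, po b h2 _ h4, e]
  choose! u hu v hv huv using ha
  have free : ∀ i j, H.2.Adj i j → ∀ s, 0 < s → s < 1 → ∀ y, Φ (lin (u i j) (v i j) s) = Φ y →
      lin (u i j) (v i j) s = y := fun i j h s h0 h1 y e => by
    refine (c2 _ _ e).resolve_right ?_
    rintro ⟨a, h2, -, -, -, h3, -⟩
    have := (ad a h2).2
    refine h.ne ((ho _ i (hu i j h)).symm.trans (Eq.trans ?_ (ho _ j (hv i j h))))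
    rcases in_mem (huv i j h) h0 h1 (ad a h2).1 h3 with ⟨e1, e2⟩ | ⟨e1, e2⟩
    · rw [← e1, ← e2, this]
    · rw [← e1, ← e2, this]
  have : ∀ i j, ∃ γ : Path (Φ (pt (r i))) (Φ (pt (r j))), H.2.Adj i j →
      ∀ t : unitInterval, γ t = Φ (lin (u i j) (v i j) t) := fun i j => by
    by_cases h : H.2.Adj i j
    · refine ⟨⟨⟨fun t => Φ (lin (u i j) (v i j) t), c0.comp ?_⟩, ?_, ?_⟩, fun _ _ => rfl⟩
      · unfold lin cb; fun_prop
      · simp only [Set.Icc.coe_zero, lin_zero]; exact fv i _ (hu i j h)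
      · simp only [Set.Icc.coe_one, lin_one]; exact fv j _ (hv i j h)
    · exact ⟨PathConnectedSpace.somePath _ _, fun h' => absurd h' h⟩
  choose γ hγ using this
  refine ⟨_, inj, γ, fun i j h _ s t e => ?_, fun i j h _ t ht w e => ?_,
    fun i j k l h hij h' hkl hne s t hs ht e => ?_⟩
  · have en : ∀ s : unitInterval, s = 0 ∨ s = 1 ∨ (0 < s.1 ∧ s.1 < 1) := fun s => by
      rcases s.2.1.eq_or_lt with a | a
      · exact Or.inl (Subtype.ext a.symm)
      rcases s.2.2.eq_or_lt with b | b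
      · exact Or.inr (Or.inl (Subtype.ext b))
      · exact Or.inr (Or.inr ⟨a, b⟩)
    have e' := e
    rw [hγ i j h, hγ i j h] at e'
    rcases en s with rfl | rfl | a <;> rcases en t with rfl | rfl | b <;> first
      | rfl
      | exact Subtype.ext (lin_inj (huv i j h) (free i j h _ a.1 a.2 _ e'))
      | exact Subtype.ext (lin_inj (huv i j h) (free i j h _ b.1 b.2 _ e'.symm)).symm
      | (simp only [Path.source, Path.target] at e
         first | exact absurd (inj e) h.ne | exact absurd (inj e) h.ne')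
  · rw [hγ i j h] at e
    have e := free i j h _ ht.1 ht.2 _ e
    rcases pt_mem (a := r w) (Or.inr (huv i j h)) ⟨t, t.2.1, t.2.2, e.symm⟩ with a | a
    · rw [a, ← lin_zero _ (v i j)] at e
      exact ht.1.ne' (lin_inj (huv i j h) e)
    · rw [a, ← lin_one (u i j)] at e
      exact ht.2.ne (lin_inj (huv i j h) e)
  · rw [hγ i j h, hγ k l h'] at e
    have e := free i j h _ hs.1 hs.2 _ e
    have a1 := ho _ i (hu i j h)
    have a2 := ho _ j (hv i j h)
    have a3 := ho _ k (hu k l h')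
    have a4 := ho _ l (hv k l h')
    rcases in_mem (huv i j h) hs.1 hs.2 (Or.inr (huv k l h')) ⟨t, t.2.1, t.2.2, e⟩ with
      ⟨e1, e2⟩ | ⟨e1, e2⟩
    · rw [e1, a1] at a3; rw [e2, a2] at a4; tauto
    · rw [e1, a2] at a3; rw [e2, a1] at a4; subst a3 a4; exact lt_asymm hij hkl

end Pool.Agent.Lib.T5
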