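import Pool.Agent.Lib.MP_4bab84_h56.Chain

/-! Large alternating double wheels have no model in a tube. -/

set_option autoImplicit false

namespace Pool.Agent.Lib.T5

open Pool.Agent.Lib.MP_4bab84_co Finset

def pat (u w : ℕ) : Prop := w = u + 4 ∨ w = u + 5 ∨ (w = u + 1 ∧ u % 4 ≠ 1)
def cp (a b : ℕ) : Prop := a = 4 ∨ b = 4 ∨ (a ≤ b + 1 ∧ b ≤ a + 1)
instance (u w : ℕ) : Decidable (pat u w) := by unfold pat; infer_instance
instance (u w : ℕ) : Decidable (cp u w) := by unfold cp; infer_instance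

/-- The labels of one cut. -/
def Good (t : ℕ) (l : ℕ → ℕ) : Prop :=
  (∃ i < 5, l i = 0) ∧ (∃ i < 5, l i = 3) ∧
  (∀ i < 5, ∀ j < 5, pat (t + i) (t + j) → cp (l i) (l j)) ∧
  ∃ i < 5, ∃ j < 5, i ≠ j ∧ (l i = 1 ∨ l i = 2) ∧ (l j = 1 ∨ l j = 2) ∧
    ¬ pat (t + i) (t + j) ∧ ¬ pat (t + j) (t + i)

instance (t : ℕ) (l : ℕ → ℕ) : Decidable (Good t l) := by unfold Good; infer_instance

def alive : ℕ → ℕ → ℕ → ℕ → ℕ → ℕ → ℕ → Bool
  | 0, t, a, b, c, d, e => decide (Good t fun i => [a, b, c, d, e].getD i 4)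
  | n + 1, t, a, b, c, d, e => decide (Good t fun i => [a, b, c, d, e].getD i 4) &&
      (List.range 5).any fun x => decide (cp a x) && alive n (t + 1) b c d e x

lemma dead : ∀ t < 4, ∀ a < 5, ∀ b < 5, ∀ c < 5, ∀ d < 5, ∀ e < 5,
    alive 8 t a b c d e = false := by
  decide +kernel

lemma Good.congr {t s : ℕ} {l l' : ℕ → ℕ} (h : Good t l) (e : ∀ i < 5, l i = l' i)
    (hs : t % 4 = s % 4) : Good s l' := by
  have p : ∀ i j, pat (s + i) (s + j) ↔ pat (t + i) (t + j) := fun i j => by unfold pat; omega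
  obtain ⟨⟨a, a1, a2⟩, ⟨b, b1, b2⟩, h, i, i1, j, j1, c1, c2, c3, c4, c5⟩ := h
  exact ⟨⟨a, a1, e a a1 ▸ a2⟩, ⟨b, b1, e b b1 ▸ b2⟩,
    fun i i1 j j1 k => e i i1 ▸ e j j1 ▸ h i i1 j j1 ((p i j).1 k), i, i1, j, j1, c1,
    e i i1 ▸ c2, e j j1 ▸ c3, mt (p i j).1 c4, mt (p j i).1 c5⟩

lemma alive_of {lab : ℕ → ℕ} (h5 : ∀ x, lab x < 5) : ∀ n s t, s % 4 = t % 4 →
    (∀ u, s ≤ u → u ≤ s + n → Good u fun i => lab (u + i)) →
    (∀ u, s ≤ u → u < s + n → cp (lab u) (lab (u + 5))) →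
    alive n t (lab s) (lab (s + 1)) (lab (s + 2)) (lab (s + 3)) (lab (s + 4)) = true := by
  intro n
  have k : ∀ s t, s % 4 = t % 4 → (Good s fun i => lab (s + i)) → Good t fun i =>
      [lab s, lab (s + 1), lab (s + 2), lab (s + 3), lab (s + 4)].getD i 4 := fun s t e h =>
    h.congr (fun i hi => by interval_cases i <;> rfl) e
  induction n with
  | zero => exact fun s t e h _ => decide_eq_true (k s t e (h s le_rfl le_rfl))
  | succ n ih =>
    intro s t e h1 h2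
    simp only [alive, Bool.and_eq_true, decide_eq_true_eq, List.any_eq_true, List.mem_range]
    exact ⟨k s t e (h1 s le_rfl (by omega)), lab (s + 5), h5 _, h2 s le_rfl (by omega),
      ih (s + 1) (t + 1) (by omega) (fun u a b => h1 u (by omega) (by omega))
        fun u a b => h2 u (by omega) (by omega)⟩

def wr (k a b : ℕ) : Prop :=
  (a < 2 * k ∧ b < 2 * k ∧ (b = a + 1 ∨ (a + 1 = 2 * k ∧ b = 0))) ∨
    (a = 2 * k ∧ b < 2 * k ∧ b % 2 = 0) ∨ (a = 2 * k + 1 ∧ b < 2 * k ∧ b % 2 = 1)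

lemma wheel_adj {k : ℕ} {a b : Fin (2 * k + 2)} :
    (wheel k).Adj a b ↔ a.1 ≠ b.1 ∧ (wr k a b ∨ wr k b a) := by
  have e : ∀ a b : ℕ, (a < 2 * k ∧ b < 2 * k ∧ b = (a + 1) % (2 * k)) ↔
      (a < 2 * k ∧ b < 2 * k ∧ (b = a + 1 ∨ (a + 1 = 2 * k ∧ b = 0))) := fun a b => by
    refine and_congr_right fun h1 => and_congr_right fun h2 => ?_
    rcases (Nat.succ_le_of_lt h1).eq_or_lt with h | h
    · rw [show a + 1 = 2 * k from h, Nat.mod_self]; omega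
    · rw [Nat.mod_eq_of_lt h]; omega
  simp only [wheel, SimpleGraph.fromRel_adj, e, wr, ne_eq, Fin.ext_iff]

lemma adj_cyc {k : ℕ} {a b : Fin (2 * k + 2)} (hk : 2 ≤ k) (ha : a.1 < 2 * k) (hb : b.1 < 2 * k)
    (h : b.1 = a.1 + 1 ∨ (a.1 + 1 = 2 * k ∧ b.1 = 0)) : (wheel k).Adj a b :=
  wheel_adj.2 ⟨by omega, Or.inl (Or.inl ⟨ha, hb, h⟩)⟩

lemma adj_hub {k : ℕ} {a b : Fin (2 * k + 2)} (hb : b.1 < 2 * k)
    (h : (a.1 = 2 * k ∧ b.1 % 2 = 0) ∨ (a.1 = 2 * k + 1 ∧ b.1 % 2 = 1)) : (wheel k).Adj a b :=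
  wheel_adj.2 ⟨by omega, Or.inl (Or.inr (h.imp (fun h => ⟨h.1, hb, h.2⟩) fun h => ⟨h.1, hb, h.2⟩))⟩

section sides
variable {k : ℕ} {P Q : Fin (2 * k + 2) → Prop} (hk : 2 ≤ k)
  (hPQ : ∀ i j, (wheel k).Adj i j → P i → ¬ Q j) (hd : ∀ i, P i → ¬ Q i)
include hk hPQ hd

lemma hub {X S : Finset (Fin (2 * k + 2))} (hX : X.card ≤ 5) (hc : ∀ i, i ∈ X ∨ P i ∨ Q i)
    {h : Fin (2 * k + 2)} (hh : 2 * k ≤ h.1) (hP : P h) (hS : ∀ i ∈ S, Q i) : S.card ≤ 6 := by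
  have c1 : (S.filter fun y => ¬ y.1 < 2 * k).card ≤ 1 := card_le_one.2 fun x hx y hy => by
    obtain ⟨a, b⟩ := mem_filter.1 hx
    obtain ⟨c, d⟩ := mem_filter.1 hy
    have : x.1 ≠ h.1 := fun e => hd h hP (Fin.ext e ▸ hS x a)
    have : y.1 ≠ h.1 := fun e => hd h hP (Fin.ext e ▸ hS y c)
    exact Fin.ext (by omega)
  have c2 : (S.filter fun y => y.1 < 2 * k).card ≤ X.card := by
    refine card_le_card_of_injOn
      (fun y => ⟨if y.1 + 1 < 2 * k then y.1 + 1 else 0, by split_ifs <;> omega⟩)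
      (fun y hy => ?_) fun x hx y hy e => ?_
    · obtain ⟨a, b⟩ := mem_filter.1 hy
      have h1 : ¬ ((h.1 = 2 * k ∧ y.1 % 2 = 0) ∨ (h.1 = 2 * k + 1 ∧ y.1 % 2 = 1)) := fun e =>
        hPQ _ _ (adj_hub b e) hP (hS y a)
      have := h.2
      refine (hc _).resolve_right (not_or.2 ⟨fun e => hPQ _ y (adj_cyc hk b ?_ ?_).symm e (hS y a),
        hPQ h _ (adj_hub ?_ ?_) hP⟩) <;> dsimp only <;> split_ifs <;> omega
    · have := (mem_filter.1 hx).2
      have := (mem_filter.1 hy).2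
      have e := congrArg Fin.val e
      dsimp only at e
      exact Fin.ext (by split_ifs at e <;> omega)
  have := card_filter_add_card_filter_not (s := S) fun y => y.1 < 2 * k
  omega

omit hd in
lemma up {n : Fin (2 * k + 2)} (hn : P n) (m : ℕ) (h : n.1 ≤ m) : ∀ hm : m < 2 * k,
    (∀ j : Fin (2 * k + 2), n.1 ≤ j.1 → j.1 ≤ m → P j ∨ Q j) → P ⟨m, by omega⟩ := by
  induction m, h using Nat.le_induction with
  | base => exact fun _ _ => hn
  | succ m h ih =>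
    intro hm hj
    refine (hj _ (by dsimp only; omega) le_rfl).resolve_right
      (hPQ _ _ (adj_cyc hk (by dsimp only; omega) hm (Or.inl rfl))
        (ih (by omega) fun j a b => hj j a (by omega)))

lemma arcs {l r : Fin (2 * k + 2)} (hl : P l) (hr : Q r) (h : l.1 < r.1) (h' : r.1 < 2 * k) :
    ∃ p q : Fin (2 * k + 2), ¬ (P p ∨ Q p) ∧ ¬ (P q ∨ Q q) ∧ p.1 < 2 * k ∧ q.1 < 2 * k ∧ p ≠ q ∧
      ¬ (wheel k).Adj p q := by
  have hQP : ∀ i j, (wheel k).Adj i j → Q i → ¬ P j := fun i j e a b => hPQ j i e.symm b a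
  obtain ⟨p, p1, p2, hp⟩ : ∃ p : Fin (2 * k + 2), l.1 ≤ p.1 ∧ p.1 ≤ r.1 ∧ ¬ (P p ∨ Q p) := by
    by_contra hc
    exact hd _ (up hk hPQ hl r h.le h' fun j a b => by_contra fun e => hc ⟨j, a, b, e⟩) hr
  obtain ⟨q, q1, q2, hq⟩ : ∃ q : Fin (2 * k + 2), q.1 < 2 * k ∧ (q.1 ≤ l.1 ∨ r.1 ≤ q.1) ∧
      ¬ (P q ∨ Q q) := by
    by_contra hc
    have hc : ∀ j : Fin (2 * k + 2), j.1 < 2 * k → (j.1 ≤ l.1 ∨ r.1 ≤ j.1) → Q j ∨ P j :=
      fun j a b => Or.symm (by_contra fun e => hc ⟨j, a, b, e⟩)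
    have a := up hk hQP hr (2 * k - 1) (by omega) (by omega) fun j a b => hc j (by omega) (Or.inr a)
    have b : Q ⟨0, by omega⟩ := (hc _ (by dsimp only; omega) (Or.inl (Nat.zero_le _))).resolve_right
      (hQP _ _ (adj_cyc hk (by dsimp only; omega) (by dsimp only; omega) (by dsimp only; omega)) a)
    exact hd _ hl (up hk hQP b l (Nat.zero_le _) (by omega) fun j _ b => hc j (by omega) (Or.inl b))
  have : p.1 ≠ l.1 := fun e => hp (Or.inl (Fin.ext e ▸ hl))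
  have : p.1 ≠ r.1 := fun e => hp (Or.inr (Fin.ext e ▸ hr))
  have : q.1 ≠ l.1 := fun e => hq (Or.inl (Fin.ext e ▸ hl))
  have : q.1 ≠ r.1 := fun e => hq (Or.inr (Fin.ext e ▸ hr))
  refine ⟨p, q, hp, hq, by omega, q1, fun e => by subst e; omega, ?_⟩
  rw [wheel_adj]; unfold wr; omega

end sides

theorem Sys.not_wheel {k M : ℕ} (σ : Sys (wheel k) M) (hk : 13 ≤ k) (hM : 17 ≤ M) : False := by
  classical
  obtain ⟨b, hb⟩ : ∃ b, b + 11 = M := ⟨M - 11, by omega⟩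
  have tot := fun t => Fintype.card_fin (2 * k + 2) ▸ σ.total t
  have hbL : 17 ≤ (σ.L b).card := by
    have := tot b
    have := σ.R_le hb
    have := (σ.small (t := b) (by omega) hb.le).1
    omega
  have ex : ∃ t, 7 ≤ (σ.L t).card := ⟨b, by omega⟩
  obtain ⟨s, hs, h7, h6⟩ : ∃ s, s + 8 ≤ b ∧ 7 ≤ (σ.L s).card ∧ (σ.L s).card ≤ 7 := by
    have h1 := Nat.find_spec ex
    have h2 := σ.L_le (Nat.find ex)
    have h3 := Nat.find_min ex (m := Nat.find ex - 1) (by omega)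
    have h4 := σ.L_add (Nat.find ex - 1) 1
    have h5 := Nat.find_min' ex (m := b) (by omega)
    have h6 := σ.L_add (Nat.find ex) (b - Nat.find ex)
    rw [show Nat.find ex - 1 + 1 = Nat.find ex by omega] at h4
    rw [show Nat.find ex + (b - Nat.find ex) = b by omega] at h6
    exact ⟨_, by omega, h1, by omega⟩
  have := σ.L_le s
  let lb : Fin (2 * k + 2) → ℕ := fun i =>
    if i.1 = 2 * k then 0 else if i.1 = 2 * k + 1 then 3 else if i.1 % 2 = 0 then 1 else 2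
  have : ∀ x, ∃ l, l < 5 ∧ (∀ i, σ.O i x → l = lb i) ∧ ((∃ i, σ.O i x) ∨ l = 4) := fun x => by
    by_cases h : ∃ i, σ.O i x
    · obtain ⟨i, hi⟩ := h
      exact ⟨lb i, by simp only [lb]; split_ifs <;> omega, fun j hj => by rw [σ.uniq hi hj],
        Or.inl ⟨i, hi⟩⟩
    · exact ⟨4, by omega, fun i hi => absurd ⟨i, hi⟩ h, Or.inr rfl⟩
  choose lab l5 l1 l2 using this
  have pa : ∀ x y, y < M → pat x y → adj M x y := fun x y h1 h2 =>
    Or.inl ⟨h1, by unfold pat at h2; omega⟩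
  have hcp : ∀ x y, y < M → pat x y → cp (lab x) (lab y) := fun x y h1 h2 => by
    rcases l2 x with ⟨i, hi⟩ | e
    · rcases l2 y with ⟨j, hj⟩ | e
      · rw [l1 x i hi, l1 y j hj]
        refine Or.inr (Or.inr ?_)
        rcases σ.ind hi hj (pa x y h1 h2) with rfl | e
        · omega
        · simp only [lb]
          rcases (wheel_adj.1 e).2 with (e | e | e) | (e | e | e) <;> split_ifs <;> omega
      · exact Or.inr (Or.inl e)
    · exact Or.inl e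
  refine absurd (alive_of l5 8 s (s % 4) (by omega) (fun u u1 u2 => ?_) fun u u1 u2 =>
    hcp _ _ (by omega) (Or.inr (Or.inl rfl)))
    (by rw [dead _ (Nat.mod_lt _ (by omega)) _ (l5 _) _ (l5 _) _ (l5 _) _ (l5 _) _ (l5 _)]; simp)
  have sm := (σ.small (t := u) (by omega) (by omega)).1
  have c1 : (σ.L s).card ≤ (σ.L u).card := card_le_card fun i hi => by
    rw [σ.mem_L] at hi ⊢; omega
  have c2 : 7 ≤ (σ.R u).card := by
    have := tot u
    have := σ.L_add s (u - s)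
    rw [show s + (u - s) = u by omega] at this
    omega
  have hPQ : ∀ i j, (wheel k).Adj i j → σ.mx i < u → ¬ u + 5 ≤ σ.mn j := fun i j e h =>
    not_le.2 (σ.edge' (by omega) (by omega) e h)
  have hQP : ∀ i j, (wheel k).Adj i j → u + 5 ≤ σ.mn i → ¬ σ.mx j < u :=
    fun i j e a b => hPQ j i e.symm b a
  have hd : ∀ i, σ.mx i < u → ¬ u + 5 ≤ σ.mn i := fun i h => by have := σ.mn_le i; omega
  have hc : ∀ i, i ∈ σ.X u ∨ σ.mx i < u ∨ u + 5 ≤ σ.mn i := fun i => by rw [σ.mem_X]; omega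
  have hh : ∀ h : Fin (2 * k + 2), 2 * k ≤ h.1 → h ∈ σ.X u := fun h e => by
    rcases hc h with a | a | a
    · exact a
    · have := hub (by omega) hPQ hd sm hc e a (S := σ.R u) fun i => σ.mem_R.1
      omega
    · have := hub (by omega) hQP (fun i a b => hd i b a) sm (fun i => (hc i).imp id Or.symm) e a
        (S := σ.L u) fun i => σ.mem_L.1
      omega
  have pos : ∀ i ∈ σ.X u, ∃ j < 5, σ.O i (u + j) := fun i hi => by
    obtain ⟨x, a, b, c⟩ := σ.meet (by omega) (by omega) (σ.mem_X.1 hi).1 (σ.mem_X.1 hi).2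
    exact ⟨x - u, by omega, by rwa [show u + (x - u) = x by omega]⟩
  refine ⟨?_, ?_, fun i _ j _ => hcp _ _ (by omega), ?_⟩
  · obtain ⟨j, a, b⟩ := pos _ (hh ⟨2 * k, by omega⟩ le_rfl)
    exact ⟨j, a, by simp [l1 _ _ b, lb]⟩
  · obtain ⟨j, a, b⟩ := pos _ (hh ⟨2 * k + 1, by omega⟩ (by dsimp only; omega))
    exact ⟨j, a, by simp [l1 _ _ b, lb]⟩
  obtain ⟨l, hl⟩ := card_pos.1 (show 0 < (σ.L u).card by omega)
  obtain ⟨r, hr⟩ := card_pos.1 (show 0 < (σ.R u).card by omega)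
  rw [σ.mem_L] at hl
  rw [σ.mem_R] at hr
  have l0 : l.1 < 2 * k := not_le.1 fun e => by have := σ.mem_X.1 (hh l e); omega
  have r0 : r.1 < 2 * k := not_le.1 fun e => by have := σ.mem_X.1 (hh r e); omega
  obtain ⟨p, q, p1, q1, p2, q2, e1, e2⟩ : ∃ p q : Fin (2 * k + 2), p ∈ σ.X u ∧ q ∈ σ.X u ∧
      p.1 < 2 * k ∧ q.1 < 2 * k ∧ p ≠ q ∧ ¬ (wheel k).Adj p q := by
    rcases lt_trichotomy l.1 r.1 with c | c | c
    · obtain ⟨p, q, a, b, c⟩ := arcs (by omega) hPQ hd hl hr c r0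
      exact ⟨p, q, (hc p).resolve_right a, (hc q).resolve_right b, c⟩
    · exact absurd (Fin.ext c ▸ hr) (hd l hl)
    · obtain ⟨p, q, a, b, c⟩ := arcs (by omega) hQP (fun i a b => hd i b a) hr hl c l0
      exact ⟨p, q, (hc p).resolve_right fun h => a h.symm, (hc q).resolve_right fun h => b h.symm, c⟩
  obtain ⟨i, i1, i2⟩ := pos p p1
  obtain ⟨j, j1, j2⟩ := pos q q1
  refine ⟨i, i1, j, j1, fun e => e1 (σ.uniq i2 (e ▸ j2)), ?_, ?_,
    fun e => (σ.ind i2 j2 (pa _ _ (by omega) e)).elim e1 e2,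
    fun e => (σ.ind j2 i2 (pa _ _ (by omega) e)).elim (Ne.symm e1) fun e => e2 e.symm⟩
  · simp only [l1 _ _ i2, lb]; split_ifs <;> omega
  · simp only [l1 _ _ j2, lb]; split_ifs <;> omega

end Pool.Agent.Lib.T5
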